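import Pool.Agent.H896.GN.Main

/-!
# An integral pair in the interior of the face
-/

set_option autoImplicit false

namespace Pool.Agent.H896.IG

open MvPolynomial Pool.Agent.T2H08.FB Pool.Agent.W594.SYZ2 Pool.Agent.W594.SYZ2.TQ
  Pool.Agent.TH735.AQ
open Pool.Agent.T2H08 Pool.Agent.H896.IQ

variable {n c : ℕ} {r : Fin c → ℕ} {Γ : Subgroup (Trans n r)}
  {K : LineBundle Γ} {N : ℕ} {D : Fin N → LineBundle Γ}
  {HK : (Fin n → ℂ) → (Fin n → ℂ) → ℂ} {HD : Fin N → (Fin n → ℂ) → (Fin n → ℂ) → ℂ}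
  {ρ : (Fin n → ℂ) → ℂ} {σ : MvPolynomial (Co r) ℂ} {l : Fin c → ℕ} {m : ℕ}
  {β : Fin N → (Fin n → ℂ) → MvPolynomial (Co r) ℂ} {κ : Fin N → Fin c → ℕ}

/-- An integral adjoint class, nef, whose form vanishes where the form of `K_X + B` vanishes. -/
theorem exists_adj (hΓ : IsIsometryGroup Γ) (hρ : IsRamification Γ ρ σ l) (hm : 1 ≤ m)
    (hK : IsLogPluricanonical K m ρ σ l (fun _ => 1) (fun _ => 0)) (hHK : K.IsChernForm HK)
    (hβ : ∀ i, IsCartier (D i) (β i) (κ i)) (hHD : ∀ i, (D i).IsChernForm (HD i))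
    {d : Fin N → ℝ} (hd : ∀ i, 0 < d i) (hklt : IsKltReal ρ σ d β)
    (hn : IsNefClass (realClass K HK D HD (1 / m) d)) :
    ∃ (a : ℕ) (b : Fin N → ℕ), 1 ≤ a ∧ (∀ i, 1 ≤ b i) ∧
      IR.Rigid σ (fun v => ∏ i, β i v ^ b i) ∧ IsNefForm (Q47.MM.cls HK HD a fun i => b i) ∧
      ∀ v, (Q47.MM.cls HK HD (1 / m) d v v).re = 0 →
        (Q47.MM.cls HK HD a (fun i => b i) v v).re = 0 := by
  obtain ⟨hnf, hnd⟩ := hn
  have hm0 : (0 : ℝ) < m := by exact_mod_cast hm
  have hs : (0 : ℝ) < 1 / m := by positivity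
  obtain ⟨J, hJ, kk, xx, htest⟩ := exists_int_tests hΓ hρ hK hHK hβ hHD
  let nn : Fin (N + 1) ⊕ J → Fin (N + 1) → ℤ :=
    Sum.elim (fun i j => if i = j then 1 else 0)
      (fun j => Fin.cons (kk j) fun i => xx j i)
  let x : Fin (N + 1) → ℝ := Fin.cons (1 / m) d
  have hl : ∀ (y : Fin (N + 1) → ℝ) (i : Fin (N + 1)),
      ∑ j, (nn (Sum.inl i) j : ℝ) * y j = y i := by
    intro y i
    simp [nn]
  have hr : ∀ (y : Fin (N + 1) → ℝ) (j : J), ∑ i, (nn (Sum.inr j) i : ℝ) * y i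
      = y 0 * kk j + ∑ i, y (Fin.succ i) * xx j i := by
    intro y j
    rw [Fin.sum_univ_succ]
    simp only [nn, Sum.elim_inr, Fin.cons_zero, Fin.cons_succ]
    rw [mul_comm]
    congr 1
    exact Finset.sum_congr rfl fun i _ => mul_comm _ _
  have hx0 : ∀ i, 0 < x i := by
    intro i
    refine Fin.cases ?_ (fun i => ?_) i
    · exact hs
    · exact hd i
  obtain ⟨ι, hι, t, b, ht, hsum, hb⟩ := Q47.MM.cone_decomp nn x (by
    rintro (i | j)
    · rw [hl]
      exact (hx0 i).le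
    · rw [hr]
      exact (htest _ d fun i => (hd i).le).1 hnf j)
  have hbpos : ∀ k i, 0 < b k i := by
    intro k i
    have h1 := (hb k (Sum.inl i)).2 (by rw [hl]; exact hx0 i)
    simpa [nn] using h1
  have hbR : ∀ k i, (((b k i).toNat : ℕ) : ℝ) = b k i := by
    intro k i
    have := Int.toNat_of_nonneg (hbpos k i).le
    exact_mod_cast this
  have hdeg : ∀ j, (l j : ℝ) + (r j + 1) ≤ ∑ i, d i * κ i j := by
    intro j
    have h1 := hnd j
    have h2 := hK.deg j
    change 0 ≤ 1 / (m : ℝ) * K.deg j + ∑ i, d i * (D i).deg j at h1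
    have h3 : (K.deg j : ℝ) = -(m * (l j + (r j + 1))) := by
      have h4 : K.deg j = -((m : ℤ) * (l j + (r j + 1))) := by
        push_cast at h2
        linarith
      rw [h4]
      push_cast
      ring
    have h5 : ∑ i, d i * ((D i).deg j : ℝ) = ∑ i, d i * κ i j :=
      Finset.sum_congr rfl fun i _ => by rw [(hβ i).deg]; push_cast; rfl
    rw [h3, h5] at h1
    have h6 : 1 / (m : ℝ) * -(m * (l j + (r j + 1))) = -((l j : ℝ) + (r j + 1)) := by
      field_simp
    rw [h6] at h1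
    linarith
  have hnef : ∀ k, IsNefForm (Q47.MM.cls HK HD ((b k 0).toNat : ℕ)
      fun i => ((b k i.succ).toNat : ℕ)) := by
    intro k
    rw [htest _ _ fun i => Nat.cast_nonneg _]
    intro j
    have h1 := (hb k (Sum.inr j)).1
    have h2 : (0 : ℝ) ≤ ∑ i, (nn (Sum.inr j) i : ℝ) * (b k i : ℝ) := by
      exact_mod_cast h1
    rw [hr (fun i => (b k i : ℝ)) j] at h2
    simp only [hbR]
    exact h2
  have hne : Nonempty ι := by
    by_contra hcon
    rw [not_nonempty_iff] at hcon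
    have h1 := hsum 0
    rw [Finset.univ_eq_empty, Finset.sum_empty] at h1
    exact absurd h1 (hx0 0).ne
  obtain ⟨k₀⟩ := hne
  refine ⟨(b k₀ 0).toNat, fun i => (b k₀ i.succ).toNat, ?_, fun i => ?_, ?_, hnef k₀, ?_⟩
  · have := hbpos k₀ 0
    omega
  · have := hbpos k₀ i.succ
    change 1 ≤ (b k₀ i.succ).toNat
    omega
  · refine rigid_of_klt hρ (fun i => (hβ i).effective) hklt hdeg fun i => ?_
    have := hbpos k₀ i.succ
    omega
  · intro v hv
    have h1 : (Q47.MM.cls HK HD (1 / m) d v v).re = ∑ k, t k *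
        (Q47.MM.cls HK HD ((b k 0).toNat : ℕ) (fun i => ((b k i.succ).toNat : ℕ)) v v).re := by
      have h2 : ∀ k, (Q47.MM.cls HK HD ((b k 0).toNat : ℕ)
          (fun i => ((b k i.succ).toNat : ℕ)) v v).re =
          b k 0 * (HK v v).re + ∑ i : Fin N, (b k i.succ : ℝ) * (HD i v v).re := by
        intro k
        rw [Q47.MM.cls_re, hbR]
        congr 1
        exact Finset.sum_congr rfl fun i _ => by rw [hbR]
      rw [Finset.sum_congr rfl fun k _ => by rw [h2 k], Q47.MM.cls_re]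
      simp only [mul_add, Finset.sum_add_distrib, Finset.mul_sum]
      congr 1
      · have h3 := hsum 0
        change _ = 1 / (m : ℝ) at h3
        rw [← h3, Finset.sum_mul]
        exact Finset.sum_congr rfl fun k _ => by ring
      · rw [Finset.sum_comm]
        refine Finset.sum_congr rfl fun i _ => ?_
        have h3 := hsum i.succ
        change _ = d i at h3
        rw [← h3, Finset.sum_mul]
        exact Finset.sum_congr rfl fun k _ => by ring
    rw [hv] at h1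
    have h2 := (Finset.sum_eq_zero_iff_of_nonneg fun k _ =>
      mul_nonneg (ht k).le (hnef k v)).1 h1.symm k₀ (Finset.mem_univ _)
    exact (mul_eq_zero.1 h2).resolve_left (ht k₀).ne'

/-- **Numerical base point freeness for line bundles which dominate a klt pair.** -/
theorem semiample_dom (hΓ : IsIsometryGroup Γ) (hρ : IsRamification Γ ρ σ l) (hm : 1 ≤ m)
    (hK : IsLogPluricanonical K m ρ σ l (fun _ => 1) (fun _ => 0)) (hHK : K.IsChernForm HK)
    (hβ : ∀ i, IsCartier (D i) (β i) (κ i)) (hHD : ∀ i, (D i).IsChernForm (HD i))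
    {d : Fin N → ℝ} (hd : ∀ i, 0 < d i) (hklt : IsKltReal ρ σ d β)
    (hn : IsNefClass (realClass K HK D HD (1 / m) d))
    {L : LineBundle Γ} {H : (Fin n → ℂ) → (Fin n → ℂ) → ℂ} {f : (Fin n → ℂ) → ℂ}
    (hH : IsHermitian H) (hf : Pot L H f) (hL : L.IsNef H)
    (hker : ∀ v, (H v v).re = 0 → ((realClass K HK D HD (1 / m) d).1 v v).re = 0) :
    ∃ (M : ℕ) (ℓ : (Fin n → ℂ) →ₗ[ℝ] ℝ) (hℓ : ∀ g ∈ Γ, ∀ v, ℓ (g.1.linear v) = ℓ v), 1 ≤ M ∧
      (L.twist M ℓ hℓ).IsSemiample := by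
  obtain ⟨a, b, ha, hb, hrig, hA, hA0⟩ := exists_adj hΓ hρ hm hK hHK hβ hHD hd hklt hn
  have hcA := chern_adj hHK hHD a b
  refine semiample_twist hΓ hρ (IR.eff_prod (fun i => eff_conv (hβ i).effective) b Finset.univ)
    (plu_adj hK hβ a b) hrig hcA hH hf hL fun v hv w => ?_
  refine h_isotropic hcA.1 hA v (hA0 v (hker v ?_)) w
  rw [hv v, Complex.zero_re]

end Pool.Agent.H896.IG
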