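import Pool.Agent.H896.IR.Real
import Pool.Graph.R_seed8.TH735.AQ.Flat

/-!
# The characters of a line bundle on the pure translations in the kernel of the Chern form
-/

set_option autoImplicit false

namespace Pool.Agent.H896.IG

open MvPolynomial Pool.Agent.T2H08.FB Pool.Agent.W594.SYZ2 Pool.Agent.W594.SYZ2.TQ
  Pool.Agent.TH735.AQ
open Pool.Agent.T2H08 Pool.Agent.H896.IQ

section Fac

variable {V : Type*} [NormedAddCommGroup V] [NormedSpace ℂ V] [FiniteDimensional ℂ V]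
  {H : V → V → ℂ}

/-- a normalised factor for one transformation -/
structure Fac (γ : V ≃ᵃ[ℂ] V) (H : V → V → ℂ) (u : V → ℂ) : Prop where
  holo : Differentiable ℂ u
  norm : ∀ v, ‖u v‖ ^ 2 = Real.exp (Real.pi * ((H (γ v) (γ v)).re - (H v v).re))

omit [FiniteDimensional ℂ V] in
theorem Fac.le {γ : V ≃ᵃ[ℂ] V} {u : V → ℂ} (hH : IsHermitian H) (hu : Fac γ H u) (v : V) :
    (H v v).re ≤ (H (γ.linear v) (γ.linear v)).re := by
  by_contra hlt
  push Not at hlt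
  set g := γ.linear with hg
  set a := γ 0 with ha
  let f : ℂ → ℂ := fun z => u (z • v) * Complex.exp (-(Real.pi * z * H (g v) a))
  have hf : Differentiable ℂ f := by
    refine (hu.holo.comp (differentiable_id.smul_const v)).mul ?_
    exact (((differentiable_id.const_mul (Real.pi : ℂ)).mul_const _).neg).cexp
  have hn : ∀ z, ‖f z‖ ^ 2 = Real.exp (Real.pi * (‖z‖ ^ 2 * ((H (g v) (g v)).re - (H v v).re)
      + (H a a).re)) := by
    intro z
    have h1 : γ (z • v) = z • g v + a := by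
      rw [TQ.act, map_smul]
    simp only [f]
    rw [norm_mul, mul_pow, hu.norm, Complex.norm_exp, ← Real.exp_nat_mul, ← Real.exp_add, h1,
      h_diag_add hH, h_diag_smul hH, h_diag_smul hH, hH.smul_left]
    congr 1
    have h2 : (-(Real.pi * z * H (g v) a)).re = -(Real.pi * (z * H (g v) a).re) := by
      rw [mul_assoc, Complex.neg_re, Complex.re_ofReal_mul]
    rw [h2]
    push_cast
    ring
  have hb : Bornology.IsBounded (Set.range f) := by
    rw [isBounded_iff_forall_norm_le]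
    refine ⟨Real.exp (Real.pi * (H a a).re) + 1, ?_⟩
    rintro _ ⟨z, rfl⟩
    have h1 : ‖f z‖ ^ 2 ≤ Real.exp (Real.pi * (H a a).re) := by
      rw [hn]
      apply Real.exp_le_exp.2
      apply mul_le_mul_of_nonneg_left _ Real.pi_pos.le
      nlinarith [sq_nonneg ‖z‖]
    have h2 := Real.exp_pos (Real.pi * (H a a).re)
    nlinarith [norm_nonneg (f z), sq_nonneg (‖f z‖ - 1)]
  have h0 := hf.apply_eq_apply_of_bounded hb 0 1
  have h1 := hn 0
  rw [h0, hn 1] at h1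
  have h2 := Real.exp_injective h1
  have h3 := mul_left_cancel₀ Real.pi_ne_zero h2
  simp at h3
  linarith

theorem Fac.diag_inv {γ : V ≃ᵃ[ℂ] V} {u u' : V → ℂ} (hH : IsHermitian H) (hu : Fac γ H u)
    (hu' : Fac γ⁻¹ H u') (v : V) : (H (γ.linear v) (γ.linear v)).re = (H v v).re := by
  apply le_antisymm _ (hu.le hH v)
  have h := hu'.le hH (γ.linear v)
  have h2 : (γ⁻¹ : V ≃ᵃ[ℂ] V).linear (γ.linear v) = v := γ.linear.symm_apply_apply v
  rwa [h2] at h

theorem Fac.inv {γ : V ≃ᵃ[ℂ] V} {u u' : V → ℂ} (hH : IsHermitian H) (hu : Fac γ H u)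
    (hu' : Fac γ⁻¹ H u') (v w : V) : H (γ.linear v) (γ.linear w) = H v w := by
  have key : ∀ v w : V, (H (γ.linear v) (γ.linear w)).re = (H v w).re := by
    intro v w
    have h1 := hu.diag_inv hH hu' (v + w)
    rw [map_add, h_diag_add hH, h_diag_add hH (x := v)] at h1
    have h2 := hu.diag_inv hH hu' v
    have h3 := hu.diag_inv hH hu' w
    linarith
  apply Complex.ext
  · exact key v w
  · have h1 := key (Complex.I • v) w
    rw [map_smul, hH.smul_left, hH.smul_left] at h1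
    simp at h1
    linarith

/-- The shape of the normalised factor. -/
theorem Fac.eq {γ : V ≃ᵃ[ℂ] V} {u u' : V → ℂ} (hH : IsHermitian H) (hu : Fac γ H u)
    (hu' : Fac γ⁻¹ H u') (v : V) :
    u v = u 0 * Complex.exp (Real.pi * H (γ.linear v) (γ 0)) := by
  set g := γ.linear with hg
  set a := γ 0 with ha
  let f : V → ℂ := fun v => u v * Complex.exp (-(Real.pi * H (g v) a))
  have hf : Differentiable ℂ f := by
    refine hu.holo.mul ?_
    have h1 : (fun v => H (g v) a)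
        = LinearMap.toContinuousLinearMap ((hl hH a) ∘ₗ (g : V →ₗ[ℂ] V)) := rfl
    have h2 : Differentiable ℂ (fun v => H (g v) a) := by
      rw [h1]
      exact ContinuousLinearMap.differentiable _
    exact ((h2.const_mul (Real.pi : ℂ)).neg).cexp
  have hn : ∀ v, ‖f v‖ ^ 2 = Real.exp (Real.pi * (H a a).re) := by
    intro v
    simp only [f]
    have h1 : γ v = g v + a := TQ.act _ v
    rw [norm_mul, mul_pow, hu.norm, Complex.norm_exp, ← Real.exp_nat_mul, ← Real.exp_add, h1,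
      h_diag_add hH, hu.diag_inv hH hu' v]
    congr 1
    have h2 : (-(Real.pi * H (g v) a)).re = -(Real.pi * (H (g v) a).re) := by
      rw [Complex.neg_re, Complex.re_ofReal_mul]
    rw [h2]
    push_cast
    ring
  have hb : Bornology.IsBounded (Set.range f) := by
    rw [isBounded_iff_forall_norm_le]
    refine ⟨Real.exp (Real.pi * (H a a).re) + 1, ?_⟩
    rintro _ ⟨z, rfl⟩
    have h1 := hn z
    have h2 := Real.exp_pos (Real.pi * (H a a).re)
    nlinarith [norm_nonneg (f z), sq_nonneg (‖f z‖ - 1)]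
  have h0 := hf.apply_eq_apply_of_bounded hb v 0
  simp only [f] at h0
  rw [map_zero, h_zero_left hH, mul_zero, neg_zero, Complex.exp_zero, mul_one] at h0
  rw [← h0, mul_assoc, ← Complex.exp_add, neg_add_cancel, Complex.exp_zero, mul_one]

end Fac

variable {n c : ℕ} {r : Fin c → ℕ} {Γ : Subgroup (Trans n r)} {L : LineBundle Γ}
  {H : (Fin n → ℂ) → (Fin n → ℂ) → ℂ} {f : (Fin n → ℂ) → ℂ}

/-- `f` is a potential for `L` and `H` -/
def Pot (L : LineBundle Γ) (H : (Fin n → ℂ) → (Fin n → ℂ) → ℂ) (f : (Fin n → ℂ) → ℂ) : Prop :=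
  Differentiable ℂ f ∧ ∀ g ∈ Γ, ∀ v, ‖L.e g v‖ ^ 2 =
    Real.exp (Real.pi * (H (onV g v) (onV g v)).re + 2 * (f (onV g v)).re
      - (Real.pi * (H v v).re + 2 * (f v).re))

/-- the normalised factor -/
noncomputable def nrm (L : LineBundle Γ) (f : (Fin n → ℂ) → ℂ) (g : Trans n r)
    (v : Fin n → ℂ) : ℂ :=
  L.e g v * Complex.exp (f v - f (onV g v))

theorem onV_diff (g : Trans n r) : Differentiable ℂ (onV g) := by
  have h2 : onV g = fun v =>
      LinearMap.toContinuousLinearMap (g.1.linear : (Fin n → ℂ) →ₗ[ℂ] (Fin n → ℂ)) v + g.1 0 := by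
    funext v
    exact TQ.act g.1 v
  rw [h2]
  exact (ContinuousLinearMap.differentiable _).add_const _

theorem nrm_ne_zero {g : Trans n r} (hg : g ∈ Γ) (v : Fin n → ℂ) : nrm L f g v ≠ 0 :=
  mul_ne_zero (L.ne_zero g hg v) (Complex.exp_ne_zero _)

theorem nrm_mul {g h : Trans n r} (hg : g ∈ Γ) (hh : h ∈ Γ) (v : Fin n → ℂ) :
    nrm L f (g * h) v = nrm L f g (onV h v) * nrm L f h v := by
  have h1 : onV (g * h) v = onV g (onV h v) := rfl
  rw [nrm, nrm, nrm, L.mul g hg h hh, h1, mul_mul_mul_comm, ← Complex.exp_add]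
  congr 2
  ring

theorem Pot.fac (hf : Pot L H f) {g : Trans n r} (hg : g ∈ Γ) : Fac g.1 H (nrm L f g) := by
  refine ⟨(L.holo g hg).mul ((hf.1.sub (hf.1.comp (onV_diff g))).cexp), fun v => ?_⟩
  rw [nrm, norm_mul, mul_pow, hf.2 g hg, Complex.norm_exp, ← Real.exp_nat_mul, ← Real.exp_add]
  congr 1
  simp only [Complex.sub_re]
  push_cast
  change Real.pi * (H (g.1 v) (g.1 v)).re + 2 * (f (g.1 v)).re - (Real.pi * (H v v).re +
    2 * (f v).re) + 2 * ((f v).re - (f (g.1 v)).re) = _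
  ring

theorem pot_inv (hH : IsHermitian H) (hf : Pot L H f) {g : Trans n r} (hg : g ∈ Γ)
    (v w : Fin n → ℂ) : H (g.1.linear v) (g.1.linear w) = H v w :=
  (hf.fac hg).inv hH (hf.fac (Γ.inv_mem hg)) v w

theorem pot_ker (hH : IsHermitian H) (hf : Pot L H f) {g : Trans n r} (hg : g ∈ Γ)
    {v : Fin n → ℂ} (hv : v ∈ ker hH) : g.1.linear v ∈ ker hH := by
  intro w
  have h := pot_inv hH hf hg v (g.1.linear.symm w)
  rw [LinearEquiv.apply_symm_apply] at h
  rw [h]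
  exact hv _

theorem nrm_eq (hH : IsHermitian H) (hf : Pot L H f) {g : Trans n r} (hg : g ∈ Γ)
    (v : Fin n → ℂ) : nrm L f g v = nrm L f g 0 *
      Complex.exp (Real.pi * H (g.1.linear v) (g.1 0)) :=
  (hf.fac hg).eq hH (hf.fac (Γ.inv_mem hg)) v

theorem nrm_add_ker (hH : IsHermitian H) (hf : Pot L H f) {g : Trans n r} (hg : g ∈ Γ)
    (v : Fin n → ℂ) {k : Fin n → ℂ} (hk : k ∈ ker hH) : nrm L f g (v + k) = nrm L f g v := by
  rw [nrm_eq hH hf hg (v + k), nrm_eq hH hf hg v, map_add, hH.add_left,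
    (pot_ker hH hf hg hk) _, add_zero]

/-- the pure translation -/
def pt (r : Fin c → ℕ) (b : Fin n → ℂ) : Trans n r :=
  (AffineEquiv.constVAdd ℂ (Fin n → ℂ) b, 1)

theorem pt_add (b b' : Fin n → ℂ) : pt r (b + b') = pt r b * pt r b' := by
  refine Prod.ext (AffineEquiv.ext fun v => ?_) (mul_one _).symm
  change b + b' + v = b + (b' + v)
  rw [add_assoc]

theorem pt_zero : pt r (0 : Fin n → ℂ) = 1 := by
  refine Prod.ext (AffineEquiv.ext fun v => ?_) rfl
  change 0 + v = v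
  rw [zero_add]

theorem pt_neg (b : Fin n → ℂ) : pt r (-b) = (pt r b)⁻¹ := by
  refine eq_inv_of_mul_eq_one_left ?_
  rw [← pt_add, neg_add_cancel, pt_zero]

theorem onV_pt (b v : Fin n → ℂ) : onV (pt r b) v = b + v := rfl

/-- conjugation -/
theorem pt_conj (g : Trans n r) (b : Fin n → ℂ) : pt r (g.1.linear b) * g = g * pt r b := by
  refine Prod.ext (AffineEquiv.ext fun v => ?_) ?_
  · change g.1.linear b + g.1 v = g.1 (b + v)
    rw [add_comm b, TQ.act_add, add_comm]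
  · change 1 * g.2 = g.2 * 1
    rw [one_mul, mul_one]

theorem pt_conj_mem {g : Trans n r} (hg : g ∈ Γ) {b : Fin n → ℂ} (hb : pt r b ∈ Γ) :
    pt r (g.1.linear b) ∈ Γ := by
  have h1 : pt r (g.1.linear b) = g * pt r b * g⁻¹ := by
    rw [← pt_conj, mul_inv_cancel_right]
  rw [h1]
  exact Γ.mul_mem (Γ.mul_mem hg hb) (Γ.inv_mem hg)

theorem nrm_pt (hH : IsHermitian H) (hf : Pot L H f) {b : Fin n → ℂ} (hb : pt r b ∈ Γ)
    (hbK : b ∈ ker hH) (v : Fin n → ℂ) : nrm L f (pt r b) v = nrm L f (pt r b) 0 := by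
  rw [nrm_eq hH hf hb]
  have h1 : (pt r b).1.linear v = v := rfl
  have h2 : (pt r b).1 0 = b := by
    change b + 0 = b
    rw [add_zero]
  rw [h1, h2, h_ker_right hH hbK, mul_zero, Complex.exp_zero, mul_one]

theorem nrm_pt_add (hH : IsHermitian H) (hf : Pot L H f) {b b' : Fin n → ℂ} (hb : pt r b ∈ Γ)
    (hbK : b ∈ ker hH) (hb' : pt r b' ∈ Γ) :
    nrm L f (pt r (b + b')) 0 = nrm L f (pt r b) 0 * nrm L f (pt r b') 0 := by
  rw [pt_add, nrm_mul hb hb', nrm_pt hH hf hb hbK]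

theorem nrm_pt_conj (hH : IsHermitian H) (hf : Pot L H f) {g : Trans n r} (hg : g ∈ Γ)
    {b : Fin n → ℂ} (hb : pt r b ∈ Γ) (hbK : b ∈ ker hH) :
    nrm L f (pt r (g.1.linear b)) 0 = nrm L f (pt r b) 0 := by
  have hb' := pt_conj_mem hg hb
  have hbK' := pot_ker hH hf hg hbK
  have h1 := nrm_mul (L := L) (f := f) hb' hg 0
  rw [pt_conj, nrm_mul hg hb, nrm_pt hH hf hb' hbK', onV_pt, add_comm b,
    nrm_add_ker hH hf hg 0 hbK, mul_comm] at h1
  exact (mul_right_cancel₀ (nrm_ne_zero hg 0) h1).symm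

theorem nrm_pt_norm (hH : IsHermitian H) (hf : Pot L H f) {b : Fin n → ℂ} (hb : pt r b ∈ Γ)
    (hbK : b ∈ ker hH) : ‖nrm L f (pt r b) 0‖ = 1 := by
  have h1 := (hf.fac hb).norm 0
  have h2 : (pt r b).1 0 = b := by
    change b + 0 = b
    rw [add_zero]
  rw [h2, hbK b, h_zero_left hH, sub_self, mul_zero, Real.exp_zero] at h1
  exact (pow_eq_one_iff_of_nonneg (norm_nonneg _) two_ne_zero).1 h1

/-- **The characters of the pure translations in the kernel are given by invariant real functionals.** -/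
theorem exists_functional (hΓ : IsIsometryGroup Γ) (hH : IsHermitian H) (hf : Pot L H f) :
    ∃ (M : ℕ) (ℓ : (Fin n → ℂ) →ₗ[ℝ] ℝ), 1 ≤ M ∧ (∀ g ∈ Γ, ∀ v, ℓ (g.1.linear v) = ℓ v) ∧
      ∀ b ∈ ker hH, pt r b ∈ Γ →
        Complex.exp ((ℓ b : ℂ) * Complex.I) = nrm L f (pt r b) 0 ^ M := by
  classical
  have hG := torus_all hΓ
  have := finite_Lin hG
  have : Fintype (Lin (FQ.GA (conv Γ))) := Fintype.ofFinite _
  have hmemGA : ∀ g ∈ Γ, g.1 ∈ FQ.GA (conv Γ) := fun g hg => FQ.mem_GA.2 ⟨g.2, hg⟩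
  let S : AddSubgroup (Fin n → ℂ) :=
    { carrier := {b | b ∈ ker hH ∧ pt r b ∈ Γ}
      zero_mem' := ⟨(ker hH).zero_mem, by rw [pt_zero]; exact Γ.one_mem⟩
      add_mem' := fun {a b} ha hb => ⟨(ker hH).add_mem ha.1 hb.1, by
        rw [pt_add]
        exact Γ.mul_mem ha.2 hb.2⟩
      neg_mem' := fun {a} ha => ⟨(ker hH).neg_mem ha.1, by
        rw [pt_neg]
        exact Γ.inv_mem ha.2⟩ }
  obtain ⟨ℓ, hℓ⟩ := exists_real hG S (fun b hb => mem_latt.2 (hmemGA _ hb.2))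
    (fun b => nrm L f (pt r b) 0) (fun b hb => nrm_pt_norm hH hf hb.2 hb.1)
    (fun b hb b' hb' => nrm_pt_add hH hf hb.2 hb.1 hb'.2)
  let ℓ' : (Fin n → ℂ) →ₗ[ℝ] ℝ :=
    ∑ g : Lin (FQ.GA (conv Γ)), ℓ ∘ₗ ((g.1 : (Fin n → ℂ) →ₗ[ℂ] (Fin n → ℂ)).restrictScalars ℝ)
  have hℓ' : ∀ v, ℓ' v = ∑ g : Lin (FQ.GA (conv Γ)), ℓ (g.1 v) := by
    intro v
    simp only [ℓ', LinearMap.sum_apply]
    rfl
  refine ⟨Fintype.card (Lin (FQ.GA (conv Γ))), ℓ', Fintype.card_pos, ?_, ?_⟩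
  · intro γ hγ v
    rw [hℓ', hℓ']
    let h : Lin (FQ.GA (conv Γ)) := ⟨γ.1.linear, γ.1, hmemGA γ hγ, rfl⟩
    refine Fintype.sum_equiv (Equiv.mulRight h) _ _ ?_
    intro g
    rfl
  · intro b hbK hb
    rw [hℓ', Complex.ofReal_sum, Finset.sum_mul, Complex.exp_sum]
    have h1 : ∀ g : Lin (FQ.GA (conv Γ)), Complex.exp ((ℓ (g.1 b) : ℂ) * Complex.I) =
        nrm L f (pt r b) 0 := by
      rintro ⟨g, γ, hγ, rfl⟩
      obtain ⟨A, hA⟩ := FQ.mem_GA.1 hγ
      rw [← nrm_pt_conj hH hf (g := (γ, A)) hA hb hbK]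
      exact hℓ _ ⟨pot_ker hH hf hA hbK, pt_conj_mem hA hb⟩
    rw [Finset.prod_congr rfl fun g _ => h1 g, Finset.prod_const, Finset.card_univ]

/-- The line bundle `L ^ M ⊗ P`, `P` the flat line bundle given by the character
`g ↦ exp (- i ℓ (g 0))`. -/
noncomputable def LineBundle.twist (L : LineBundle Γ) (M : ℕ) (ℓ : (Fin n → ℂ) →ₗ[ℝ] ℝ)
    (hℓ : ∀ g ∈ Γ, ∀ v, ℓ (g.1.linear v) = ℓ v) : LineBundle Γ where
  deg := fun j => M * L.deg j
  e := fun g v => L.e g v ^ M * Complex.exp (-((ℓ (onV g 0) : ℂ) * Complex.I))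
  holo := fun g hg => ((L.holo g hg).pow M).mul_const _
  ne_zero := fun g hg v => mul_ne_zero (pow_ne_zero M (L.ne_zero g hg v)) (Complex.exp_ne_zero _)
  mul := fun g hg h hh v => by
    have h1 : onV (g * h) 0 = g.1.linear (onV h 0) + onV g 0 := TQ.act g.1 (onV h 0)
    rw [L.mul g hg h hh, mul_pow, h1, map_add, hℓ g hg, mul_mul_mul_comm, ← Complex.exp_add]
    congr 2
    push_cast
    ring
  stab := fun g hg v z μ hz h1 h2 => by
    have h3 : g.1.linear v + onV g 0 = v := (TQ.act g.1 v).symm.trans h1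
    have h4 := congrArg ℓ h3
    rw [map_add, hℓ g hg, add_eq_left] at h4
    rw [h4, Complex.ofReal_zero, zero_mul, neg_zero, Complex.exp_zero, mul_one,
      L.stab g hg v z μ hz h1 h2, ← Finset.prod_pow]
    refine Finset.prod_congr rfl fun j _ => ?_
    rw [mul_comm, zpow_mul, zpow_natCast]
  perm := fun g hg π hπ j => by rw [L.perm g hg π hπ]

theorem pot_twist (hf : Pot L H f) (M : ℕ) (ℓ : (Fin n → ℂ) →ₗ[ℝ] ℝ)
    (hℓ : ∀ g ∈ Γ, ∀ v, ℓ (g.1.linear v) = ℓ v) :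
    Pot (L.twist M ℓ hℓ) (fun v w => (M : ℂ) * H v w) (fun v => (M : ℂ) * f v) := by
  have hMr : ∀ z : ℂ, ((M : ℂ) * z).re = (M : ℝ) * z.re := fun z => by
    have : ((M : ℕ) : ℂ) = ((M : ℝ) : ℂ) := by push_cast; rfl
    rw [this, Complex.re_ofReal_mul]
  refine ⟨hf.1.const_mul _, fun g hg v => ?_⟩
  have h0 : ‖Complex.exp (-((ℓ (onV g 0) : ℂ) * Complex.I))‖ = 1 := by
    rw [Complex.norm_exp]
    simp
  have h1 : ‖(L.twist M ℓ hℓ).e g v‖ ^ 2 = (‖L.e g v‖ ^ 2) ^ M := by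
    change ‖L.e g v ^ M * _‖ ^ 2 = _
    rw [norm_mul, h0, mul_one, norm_pow, ← pow_mul, ← pow_mul, mul_comm]
  rw [h1, hf.2 g hg, ← Real.exp_nat_mul]
  simp only [hMr]
  congr 1
  ring

theorem herm_mul (hH : IsHermitian H) (M : ℕ) : IsHermitian fun v w => (M : ℂ) * H v w := by
  refine ⟨fun u v w => ?_, fun a v w => ?_, fun v w => ?_⟩
  · rw [hH.add_left, mul_add]
  · rw [hH.smul_left]
    ring
  · rw [map_mul, ← hH.symm, Complex.conj_natCast]

theorem nrm_twist (M : ℕ) (ℓ : (Fin n → ℂ) →ₗ[ℝ] ℝ)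
    (hℓ : ∀ g ∈ Γ, ∀ v, ℓ (g.1.linear v) = ℓ v) (b : Fin n → ℂ) :
    nrm (L.twist M ℓ hℓ) (fun v => (M : ℂ) * f v) (pt r b) 0 =
      nrm L f (pt r b) 0 ^ M * (Complex.exp ((ℓ b : ℂ) * Complex.I))⁻¹ := by
  have h1 : onV (pt r b) 0 = b := by rw [onV_pt, add_zero]
  rw [nrm, nrm, h1, mul_pow, ← Complex.exp_nat_mul]
  change L.e (pt r b) 0 ^ M * Complex.exp (-((ℓ (onV (pt r b) 0) : ℂ) * Complex.I)) * _ = _
  rw [h1, Complex.exp_neg, mul_sub]
  ring

end Pool.Agent.H896.IG
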