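import Pool.Agent.H896.IR.Stmt

/-!
# Numerically semiample line bundles on isometry quotients and on their coverings

See `Pool.Agent.H896.IQ.Stmt` and `Pool.Agent.H896.IR.Stmt` for the groups, the line bundles, the pairs
and the classes.
-/

set_option autoImplicit false

namespace Pool.Agent.H896.IG

open MvPolynomial Pool.Agent.T2H08.FB

variable {n c : ℕ} {r : Fin c → ℕ} {Γ : Subgroup (Trans n r)}

/-- The line bundle `L ^ M ⊗ P`. -/
noncomputable def LineBundle.powTensor (L : LineBundle Γ) (M : ℕ) (P : LineBundle Γ) :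
    LineBundle Γ where
  deg := fun j => M * L.deg j + P.deg j
  e := fun g v => L.e g v ^ M * P.e g v
  holo := fun g hg => ((L.holo g hg).pow M).mul (P.holo g hg)
  ne_zero := fun g hg v => mul_ne_zero (pow_ne_zero M (L.ne_zero g hg v)) (P.ne_zero g hg v)
  mul := fun g hg h hh v => by
    rw [L.mul g hg h hh, P.mul g hg h hh]
    ring
  stab := fun g hg v z μ hz h1 h2 => by
    rw [L.stab g hg v z μ hz h1 h2, P.stab g hg v z μ hz h1 h2, ← Finset.prod_pow,
      ← Finset.prod_mul_distrib]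
    refine Finset.prod_congr rfl fun j _ => ?_
    rw [zpow_add₀ (μ j).ne_zero, mul_comm (M : ℤ), zpow_mul, zpow_natCast]
  perm := fun g hg π hπ j => by
    rw [L.perm g hg π hπ, P.perm g hg π hπ]

/-- `P` is a flat unitary line bundle: it is given by a character of `Γ` (a holomorphic function of
absolute value `1` is constant) and it is trivial on the factors of `F`. These are the line bundles which
are numerically trivial, up to torsion. -/
def LineBundle.IsFlat (P : LineBundle Γ) : Prop :=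
  (∀ j, P.deg j = 0) ∧ ∀ g ∈ Γ, ∀ v, ‖P.e g v‖ = 1

/-- `L` is numerically semiample: `L ^ M ⊗ P` is semiample for some `M ≥ 1` and some flat line bundle `P`. -/
def LineBundle.IsNumSemiample (L : LineBundle Γ) : Prop :=
  ∃ (M : ℕ) (P : LineBundle Γ), 1 ≤ M ∧ P.IsFlat ∧ (L.powTensor M P).IsSemiample

/-- `H^1(X, ℝ) = 0` for `X = (V × F) / Γ`: no real linear form on `V` except `0` is invariant under the
linear parts of the elements of `Γ`. -/
def NoOneForms (Γ : Subgroup (Trans n r)) : Prop :=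
  ∀ ℓ : (Fin n → ℂ) →ₗ[ℝ] ℝ, (∀ g ∈ Γ, ∀ v w, ℓ (onV g v - onV g w) = ℓ (v - w)) → ℓ = 0

/-! ### Cyclic coverings

Let the line bundles `R i` be roots, `(R i) ^ (q i) = D i`, of the line bundles of effective divisors given
by the sections `β i` of the `D i`. The covering `Y` of `X` consists of the points `(x, y)`, `x` in `X` and
`y_i` in the fibre of `R i` at `x`, with `y_i ^ (q i) = β i (x)`: it is the fibre product of the cyclic
coverings. Then `K_Y` is the pullback of `K_X + ∑ (1 - 1 / q i) D_i`. If `X` is smooth, that is, if `Γ` acts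
without fixed points on `V × F`, and if the `D_i` are smooth and cross normally, then `Y` is a
compact Kähler manifold, projective if `X` is projective. -/

/-- `R ^ q = D`. -/
def IsRoot (R : LineBundle Γ) (q : ℕ) (D : LineBundle Γ) : Prop :=
  (∀ j, D.deg j = q * R.deg j) ∧ ∀ g ∈ Γ, ∀ v, D.e g v = R.e g v ^ q

variable {N : ℕ}

/-- `(v, z, y)` gives a point of the covering `Y` of `X`. -/
def IsCoverPt (q : Fin N → ℕ) (β : Fin N → (Fin n → ℂ) → MvPolynomial (Co r) ℂ)
    (v : Fin n → ℂ) (z : Co r → ℂ) (y : Fin N → ℂ) : Prop :=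
  IsPt z ∧ ∀ i, y i ^ q i = eval z (β i v)

/-- A section over `Y` of the pullback of `L ^ M`: it is a sum `∑ s_a y ^ a`, where `s_a` is a section of
`L ^ M ⊗ R ^ (- a)` on `X`, `R ^ (- a) = ⨂ (R i) ^ (- a i)`, for `a` in a finite set `S` (the direct image of
`O_Y` on `X` is the sum of the `R ^ (- a)` with `0 ≤ a i < q i`). -/
structure LineBundle.IsCoverSection (L : LineBundle Γ) (R : Fin N → LineBundle Γ) (M : ℕ)
    (S : Finset (Fin N → ℕ)) (s : (Fin N → ℕ) → (Fin n → ℂ) → (Co r → ℂ) → ℂ) : Prop where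
  holo : ∀ a ∈ S, Differentiable ℂ fun p : (Fin n → ℂ) × (Co r → ℂ) => s a p.1 p.2
  homog : ∀ a ∈ S, ∀ (μ : Fin c → ℂˣ) v z,
    (∏ i, (∏ j, (μ j : ℂ) ^ (R i).deg j) ^ a i) * s a v (mulBy μ z) =
      (∏ j, (μ j : ℂ) ^ (M * L.deg j)) * s a v z
  eq : ∀ a ∈ S, ∀ g ∈ Γ, ∀ v z, (∏ i, (R i).e g v ^ a i) * s a (onV g v) (onZ g z) =
    L.e g v ^ M * s a v z

/-- the value of the section at a point of `Y` -/
def coverVal (S : Finset (Fin N → ℕ)) (s : (Fin N → ℕ) → (Fin n → ℂ) → (Co r → ℂ) → ℂ)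
    (v : Fin n → ℂ) (z : Co r → ℂ) (y : Fin N → ℂ) : ℂ :=
  ∑ a ∈ S, s a v z * ∏ i, y i ^ a i

/-- The pullback of the class `x` to `Y` is effective: it is a combination with nonnegative real
coefficients of classes of pullbacks of line bundles which have nonzero sections over `Y`. -/
def IsCoverEffectiveClass (R : Fin N → LineBundle Γ) (q : Fin N → ℕ)
    (β : Fin N → (Fin n → ℂ) → MvPolynomial (Co r) ℂ) (x : RealClass n c) : Prop :=
  ∃ (ι : Type) (_ : Fintype ι) (t : ι → ℝ) (M : ι → LineBundle Γ)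
    (HM : ι → (Fin n → ℂ) → (Fin n → ℂ) → ℂ),
    (∀ k, 0 ≤ t k) ∧ (∀ k, (M k).IsChernForm (HM k)) ∧
    (∀ k, ∃ S s, (M k).IsCoverSection R 1 S s ∧
      ∃ v z y, IsCoverPt q β v z y ∧ coverVal S s v z y ≠ 0) ∧
    (∀ v w, x.1 v w = ∑ k, t k * HM k v w) ∧ ∀ j, x.2 j = ∑ k, t k * (M k).deg j

/-- The pullback of the class `x` to `Y` is pseudo-effective: it is a limit of effective classes. -/
def IsCoverPseudoEffectiveClass (R : Fin N → LineBundle Γ) (q : Fin N → ℕ)
    (β : Fin N → (Fin n → ℂ) → MvPolynomial (Co r) ℂ) (x : RealClass n c) : Prop :=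
  ∃ y : ℕ → RealClass n c, (∀ k, IsCoverEffectiveClass R q β (y k)) ∧
    (∀ v w, Filter.Tendsto (fun k => (y k).1 v w) Filter.atTop (nhds (x.1 v w))) ∧
    ∀ j, Filter.Tendsto (fun k => (y k).2 j) Filter.atTop (nhds (x.2 j))

/-- The pullback of `L` to `Y` is numerically semiample: for some `M ≥ 1` and some flat line bundle `P` the
sections over `Y` of some power of the pullback of `L ^ M ⊗ P` have no common zero. -/
def LineBundle.IsCoverNumSemiample (L : LineBundle Γ) (R : Fin N → LineBundle Γ) (q : Fin N → ℕ)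
    (β : Fin N → (Fin n → ℂ) → MvPolynomial (Co r) ℂ) : Prop :=
  ∃ (M : ℕ) (P : LineBundle Γ), 1 ≤ M ∧ P.IsFlat ∧ ∃ k : ℕ, 1 ≤ k ∧
    ∀ v z y, IsCoverPt q β v z y →
      ∃ S s, (L.powTensor M P).IsCoverSection R k S s ∧ coverVal S s v z y ≠ 0

end Pool.Agent.H896.IG
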