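import Pool.Agent.H896.GN.Adj
import Pool.Agent.H896.GN.Stmt

/-!
# Conclusion, coverings
-/

set_option autoImplicit false

namespace Pool.Agent.H896.IG

open MvPolynomial Pool.Agent.T2H08.FB Pool.Agent.W594.SYZ2 Pool.Agent.W594.SYZ2.TQ
  Pool.Agent.TH735.AQ
open Pool.Agent.T2H08 Pool.Agent.H896.IQ

variable {n c : ℕ} {r : Fin c → ℕ} {Γ : Subgroup (Trans n r)}
  {K : LineBundle Γ} {N : ℕ} {D : Fin N → LineBundle Γ}
  {HK : (Fin n → ℂ) → (Fin n → ℂ) → ℂ} {HD : Fin N → (Fin n → ℂ) → (Fin n → ℂ) → ℂ}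
  {ρ : (Fin n → ℂ) → ℂ} {σ : MvPolynomial (Co r) ℂ} {l : Fin c → ℕ} {m : ℕ}
  {β : Fin N → (Fin n → ℂ) → MvPolynomial (Co r) ℂ} {κ : Fin N → Fin c → ℕ}

/-- the flat line bundle of the functional -/
noncomputable def flatOf (Γ : Subgroup (Trans n r)) (ℓ : (Fin n → ℂ) →ₗ[ℝ] ℝ)
    (hℓ : ∀ g ∈ Γ, ∀ v, ℓ (g.1.linear v) = ℓ v) : LineBundle Γ where
  deg := fun _ => 0
  e := fun g _ => Complex.exp (-((ℓ (onV g 0) : ℂ) * Complex.I))
  holo := fun g _ => differentiable_const _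
  ne_zero := fun g _ v => Complex.exp_ne_zero _
  mul := fun g hg h hh v => by
    have h1 : onV (g * h) 0 = g.1.linear (onV h 0) + onV g 0 := TQ.act g.1 (onV h 0)
    rw [h1, map_add, hℓ g hg, ← Complex.exp_add]
    congr 1
    push_cast
    ring
  stab := fun g hg v z μ hz h1 h2 => by
    have h3 : g.1.linear v + onV g 0 = v := (TQ.act g.1 v).symm.trans h1
    have h4 := congrArg ℓ h3
    rw [map_add, hℓ g hg, add_eq_left] at h4
    rw [h4, Complex.ofReal_zero, zero_mul, neg_zero, Complex.exp_zero]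
    simp
  perm := fun g hg π hπ j => rfl

theorem flatOf_flat (ℓ : (Fin n → ℂ) →ₗ[ℝ] ℝ) (hℓ : ∀ g ∈ Γ, ∀ v, ℓ (g.1.linear v) = ℓ v) :
    (flatOf Γ ℓ hℓ).IsFlat := by
  refine ⟨fun _ => rfl, fun g hg v => ?_⟩
  change ‖Complex.exp (-((ℓ (onV g 0) : ℂ) * Complex.I))‖ = 1
  rw [Complex.norm_exp]
  simp

theorem lb_ext {L L' : LineBundle Γ} (h1 : L.deg = L'.deg) (h2 : L.e = L'.e) : L = L' := by
  cases L
  cases L'
  simp only at h1 h2
  subst h1 h2
  rfl

theorem twist_eq (L : LineBundle Γ) (M : ℕ) (ℓ : (Fin n → ℂ) →ₗ[ℝ] ℝ)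
    (hℓ : ∀ g ∈ Γ, ∀ v, ℓ (g.1.linear v) = ℓ v) :
    L.powTensor M (flatOf Γ ℓ hℓ) = L.twist M ℓ hℓ :=
  lb_ext (funext fun j => by
    change (M : ℤ) * L.deg j + 0 = M * L.deg j
    rw [add_zero]) rfl

/-- **The main theorem.** -/
theorem num_semiample (hΓ : IsIsometryGroup Γ) (hρ : IsRamification Γ ρ σ l) (hm : 1 ≤ m)
    (hK : IsLogPluricanonical K m ρ σ l (fun _ => 1) (fun _ => 0)) (hHK : K.IsChernForm HK)
    (hβ : ∀ i, IsCartier (D i) (β i) (κ i)) (hHD : ∀ i, (D i).IsChernForm (HD i))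
    {d : Fin N → ℝ} (hd : ∀ i, 0 < d i) (hklt : IsKltReal ρ σ d β)
    (hn : IsNefClass (realClass K HK D HD (1 / m) d))
    {L : LineBundle Γ} {H : (Fin n → ℂ) → (Fin n → ℂ) → ℂ} (hc : L.IsChernForm H)
    (hL : L.IsNef H) {t : ℝ}
    (ht : IsNefForm fun v w => t * H v w - (realClass K HK D HD (1 / m) d).1 v w) :
    L.IsNumSemiample ∧ (NoOneForms Γ → L.IsSemiample) := by
  obtain ⟨hH, f, hf⟩ := hc
  have hf' : Pot L H f := hf
  obtain ⟨M, ℓ, hℓ, hM, hs⟩ := semiample_dom hΓ hρ hm hK hHK hβ hHD hd hklt hn hH hf' hL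
    (fun v hv => by
      have h1 := ht v
      simp only [Complex.sub_re, Complex.re_ofReal_mul, hv, mul_zero, zero_sub] at h1
      have h2 := hn.1 v
      linarith)
  refine ⟨⟨M, flatOf Γ ℓ hℓ, hM, flatOf_flat ℓ hℓ, ?_⟩, fun h0 => ?_⟩
  · rw [twist_eq]
    exact hs
  · have h1 : ℓ = 0 := h0 ℓ fun g hg v w => by
      have h2 : onV g v - onV g w = g.1.linear (v - w) := by
        rw [map_sub]
        have h3 : onV g v = g.1.linear v + g.1 0 := TQ.act g.1 v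
        have h4 : onV g w = g.1.linear w + g.1 0 := TQ.act g.1 w
        rw [h3, h4]
        abel
      rw [h2, hℓ g hg]
    subst h1
    obtain ⟨M', hM', h⟩ := hs
    refine ⟨M * M', Nat.mul_pos hM hM', fun v z hz => ?_⟩
    obtain ⟨s, hs, hs0⟩ := h v z hz
    refine ⟨s, ⟨hs.holo, fun μ v z => ?_, fun g hg v z => ?_⟩, hs0⟩
    · rw [hs.homog]
      congr 1
      refine Finset.prod_congr rfl fun j _ => ?_
      congr 1
      change (M' : ℤ) * ((M : ℤ) * L.deg j) = _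
      push_cast
      ring
    · rw [hs.eq g hg]
      congr 1
      change (L.e g v ^ M * Complex.exp (-(((0 : ℝ) : ℂ) * Complex.I))) ^ M' = _
      rw [Complex.ofReal_zero, zero_mul, neg_zero, Complex.exp_zero, mul_one, pow_mul]

/-! ### Coverings -/

variable {R : Fin N → LineBundle Γ} {q : Fin N → ℕ}

/-- a line bundle with sections over the covering is nef -/
theorem nef_of_cover (hΓ : IsIsometryGroup Γ) (hβ : ∀ i, IsCartier (D i) (β i) (κ i))
    (hR : ∀ i, IsRoot (R i) (q i) (D i)) (hq : ∀ i, 1 ≤ q i)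
    {L : LineBundle Γ} {H : (Fin n → ℂ) → (Fin n → ℂ) → ℂ} (hc : L.IsChernForm H)
    {S : Finset (Fin N → ℕ)} {s : (Fin N → ℕ) → (Fin n → ℂ) → (Co r → ℂ) → ℂ}
    (hs : L.IsCoverSection R 1 S s) {v : Fin n → ℂ} {z : Co r → ℂ} {y : Fin N → ℂ}
    (hp : IsCoverPt q β v z y) (h0 : coverVal S s v z y ≠ 0) : L.IsNef H := by
  classical
  obtain ⟨a, ha, ha0⟩ := Finset.exists_ne_zero_of_sum_ne_zero h0
  have hs0 : s a v z ≠ 0 := left_ne_zero_of_mul ha0
  have hy0 : ∏ i, y i ^ a i ≠ 0 := right_ne_zero_of_mul ha0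
  obtain ⟨Q, hQ⟩ : ∃ Q, Q = ∏ i, q i := ⟨_, rfl⟩
  have hQ1 : 1 ≤ Q := by
    rw [hQ]
    exact Finset.one_le_prod' fun i _ => hq i
  have hQd : ∀ i, ∃ Q', q i * Q' = Q := fun i => by
    obtain ⟨Q', h⟩ : q i ∣ Q := by
      rw [hQ]
      exact Finset.dvd_prod_of_mem q (Finset.mem_univ i)
    exact ⟨Q', h.symm⟩
  choose Q' hQ' using hQd
  have hβc : ∀ i, FQ.IsEffective (β i) (κ i) := fun i => eff_conv (hβ i).effective
  refine nef_of_section hΓ hc hQ1 (s := fun v z => s a v z ^ Q * ∏ i, eval z (β i v) ^ (a i * Q' i))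
    ⟨?_, fun μ v z => ?_, fun g hg v z => ?_⟩ ⟨v, z, hp.1, ?_⟩
  · refine ((hs.holo a ha).pow Q).mul ?_
    have h1 : ∀ i, Differentiable ℂ fun p : (Fin n → ℂ) × (Co r → ℂ) =>
        eval p.2 (β i p.1) ^ (a i * Q' i) := fun i =>
      (FQ.holo_eval (hβc i).holo (hβc i).homog).pow _
    exact FQ.differentiable_prod _ _ h1
  · have h1 : ∀ i, eval (mulBy μ z) (β i v) = (∏ j, (μ j : ℂ) ^ (R i).deg j) ^ q i *
        eval z (β i v) := by
      intro i
      have h2 := eval_scal ((hβc i).homog v) μ z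
      change eval (FQ.scal μ z) (β i v) = _
      rw [h2, ← Finset.prod_pow]
      congr 1
      refine Finset.prod_congr rfl fun j _ => ?_
      rw [← zpow_natCast, ← zpow_natCast, ← zpow_mul]
      congr 1
      rw [← (hβ i).deg j, (hR i).1 j]
      ring
    have h2 := hs.homog a ha μ v z
    rw [Finset.prod_congr rfl fun i _ => by rw [h1 i, mul_pow], Finset.prod_mul_distrib]
    have h3 : ∏ i, ((∏ j, (μ j : ℂ) ^ (R i).deg j) ^ q i) ^ (a i * Q' i) =
        (∏ i, (∏ j, (μ j : ℂ) ^ (R i).deg j) ^ a i) ^ Q := by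
      rw [← Finset.prod_pow]
      refine Finset.prod_congr rfl fun i _ => ?_
      rw [← pow_mul, ← pow_mul, ← hQ' i]
      congr 1
      ring
    rw [h3]
    have h4 : ∏ j, (μ j : ℂ) ^ ((Q : ℤ) * L.deg j) =
        (∏ j, (μ j : ℂ) ^ (((1 : ℕ) : ℤ) * L.deg j)) ^ Q := by
      rw [← Finset.prod_pow]
      refine Finset.prod_congr rfl fun j _ => ?_
      rw [Nat.cast_one, one_mul, mul_comm, zpow_mul, zpow_natCast]
    rw [h4, ← mul_assoc, ← mul_assoc, ← mul_pow, ← mul_pow, mul_comm (s a v (mulBy μ z)), h2]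
  · have h2 := hs.eq a ha g hg v z
    rw [pow_one] at h2
    have h1 : ∀ i, eval (onZ g z) (β i (onV g v)) = (R i).e g v ^ q i * eval z (β i v) := by
      intro i
      rw [(hβ i).eq g hg, (hR i).2 g hg]
    rw [Finset.prod_congr rfl fun i _ => by rw [h1 i, mul_pow], Finset.prod_mul_distrib]
    have h3 : ∏ i, ((R i).e g v ^ q i) ^ (a i * Q' i) = (∏ i, (R i).e g v ^ a i) ^ Q := by
      rw [← Finset.prod_pow]
      refine Finset.prod_congr rfl fun i _ => ?_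
      rw [← pow_mul, ← pow_mul, ← hQ' i]
      congr 1
      ring
    rw [h3, ← mul_assoc, ← mul_assoc, ← mul_pow, ← mul_pow, mul_comm (s a (onV g v) (onZ g z)), h2]
  · refine mul_ne_zero (pow_ne_zero _ hs0) (Finset.prod_ne_zero_iff.2 fun i _ => ?_)
    rcases Nat.eq_zero_or_pos (a i) with h1 | h1
    · rw [h1, zero_mul, pow_zero]
      exact one_ne_zero
    · refine pow_ne_zero _ ?_
      rw [← hp.2 i]
      refine pow_ne_zero _ fun h2 => ?_
      exact (Finset.prod_ne_zero_iff.1 hy0 i (Finset.mem_univ i)) (by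
        rw [h2, zero_pow h1.ne'])

theorem nef_of_cover_pseff (hΓ : IsIsometryGroup Γ) (hβ : ∀ i, IsCartier (D i) (β i) (κ i))
    (hR : ∀ i, IsRoot (R i) (q i) (D i)) (hq : ∀ i, 1 ≤ q i) {x : RealClass n c}
    (h : IsCoverPseudoEffectiveClass R q β x) : IsNefClass x := by
  obtain ⟨y, hy, h1, h2⟩ := h
  have h3 : ∀ k, IsNefClass (y k) := by
    intro k
    obtain ⟨ι, _, t, M, HM, ht, hM, hs, h1, h2⟩ := hy k
    have h3 : ∀ k, (M k).IsNef (HM k) := by
      intro k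
      obtain ⟨S, s, hs, v, z, y, hp, h0⟩ := hs k
      exact nef_of_cover hΓ hβ hR hq (hM k) hs hp h0
    refine ⟨fun v => ?_, fun j => ?_⟩
    · rw [h1, Complex.re_sum]
      refine Finset.sum_nonneg fun k _ => ?_
      rw [Complex.re_ofReal_mul]
      exact mul_nonneg (ht k) ((h3 k).1 v)
    · rw [h2]
      refine Finset.sum_nonneg fun k _ => mul_nonneg (ht k) ?_
      exact_mod_cast (h3 k).2 j
  exact ⟨fun v => ge_of_tendsto' ((Complex.continuous_re.tendsto _).comp (h1 v v)) fun k =>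
    (h3 k).1 v, fun j => ge_of_tendsto' (h2 j) fun k => (h3 k).2 j⟩

theorem cover_of_num {L : LineBundle Γ} (h : L.IsNumSemiample) :
    L.IsCoverNumSemiample R q β := by
  obtain ⟨M, P, hM, hP, k, hk, h⟩ := h
  refine ⟨M, P, hM, hP, k, hk, fun v z y hp => ?_⟩
  obtain ⟨s, hs, hs0⟩ := h v z hp.1
  refine ⟨{0}, fun _ => s, ⟨fun a _ => hs.holo, fun a ha μ v z => ?_, fun a ha g hg v z => ?_⟩, ?_⟩
  · rw [Finset.mem_singleton.1 ha, hs.homog]
    simp
  · rw [Finset.mem_singleton.1 ha, hs.eq g hg]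
    simp
  · unfold coverVal
    rw [Finset.sum_singleton]
    simpa using hs0

/-- On the coverings. -/
theorem cover_semiample (hΓ : IsIsometryGroup Γ) (hρ : IsRamification Γ ρ σ l) (hm : 1 ≤ m)
    (hK : IsLogPluricanonical K m ρ σ l (fun _ => 1) (fun _ => 0)) (hHK : K.IsChernForm HK)
    (hβ : ∀ i, IsCartier (D i) (β i) (κ i)) (hHD : ∀ i, (D i).IsChernForm (HD i))
    (hR : ∀ i, IsRoot (R i) (q i) (D i)) (hq : ∀ i, 2 ≤ q i)
    (hklt : IsKltReal ρ σ (fun i => 1 - 1 / (q i : ℝ)) β)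
    (hps : IsCoverPseudoEffectiveClass R q β
      (realClass K HK D HD (1 / m) fun i => 1 - 1 / (q i : ℝ)))
    {L : LineBundle Γ} {H : (Fin n → ℂ) → (Fin n → ℂ) → ℂ} (hc : L.IsChernForm H)
    {t : ℝ} (ht0 : 0 < t)
    (ht : IsNefClass (fun v w => t * H v w -
        (realClass K HK D HD (1 / m) fun i => 1 - 1 / (q i : ℝ)).1 v w,
      fun j => t * L.deg j - (realClass K HK D HD (1 / m) fun i => 1 - 1 / (q i : ℝ)).2 j)) :
    L.IsCoverNumSemiample R q β := by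
  have hn := nef_of_cover_pseff hΓ hβ hR (fun i => (Nat.le_succ 1).trans (hq i)) hps
  have hd : ∀ i, 0 < 1 - 1 / (q i : ℝ) := fun i => by
    have h1 : (2 : ℝ) ≤ q i := by exact_mod_cast hq i
    have h2 : 1 / (q i : ℝ) ≤ 1 / 2 := one_div_le_one_div_of_le (by norm_num) h1
    linarith
  refine cover_of_num (num_semiample hΓ hρ hm hK hHK hβ hHD hd hklt hn hc ⟨fun v => ?_, fun j => ?_⟩
    ht.1).1
  · have h1 := ht.1 v
    have h2 := hn.1 v
    simp only [Complex.sub_re, Complex.re_ofReal_mul] at h1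
    have h3 : 0 ≤ t * (H v v).re := by linarith
    exact nonneg_of_mul_nonneg_right h3 ht0
  · have h1 := ht.2 j
    have h2 := hn.2 j
    have h3 : 0 ≤ t * (L.deg j : ℝ) := by
      simp only at h1
      linarith
    have h4 := nonneg_of_mul_nonneg_right h3 ht0
    exact_mod_cast h4

end Pool.Agent.H896.IG
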