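import Pool.Agent.H896.IR.Free

/-!
# Base point freeness for line bundles which are trivial on the pure translations in the kernel
-/

set_option autoImplicit false

namespace Pool.Agent.H896.IR

open Pool.Agent.T2H08.FQ Pool.Agent.W594.SYZ2 Pool.Agent.W594.SYZ2.TQ Pool.Agent.TH735.AQ
  MvPolynomial MeasureTheory Pool.Agent.H896.IQ

variable {n c : ℕ} {r : Fin c → ℕ}

section

variable {Γ : Subgroup (Grp n r)}
  {L A : LineBundle Γ} {ρ : (Fin n → ℂ) → ℂ} {σ : MvPolynomial (Co r) ℂ} {l k : Fin c → ℕ}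
  {β : (Fin n → ℂ) → MvPolynomial (Co r) ℂ} {m : ℕ} {H : (Fin n → ℂ) → (Fin n → ℂ) → ℂ}
  {f : (Fin n → ℂ) → ℂ}

/-- A character given by a meromorphic function with poles on the mirrors is trivial. -/
theorem kappa_one' {V : Type*} [NormedAddCommGroup V] [NormedSpace ℂ V] [FiniteDimensional ℂ V]
    {G : Subgroup (V ≃ᵃ[ℂ] V)} {M : Pool.Agent.W594.SYZ2.LineBundle G} {H : V → V → ℂ} {f : V → ℂ}
    (hH : IsHermitian H) (hpot : IsPot M H f) {K : Submodule ℂ V} (hKH : K ≤ ker hH)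
    (hspanV : ∀ x ∈ K, x ∈ Submodule.span ℝ {b | b ∈ latt G ∧ b ∈ K})
    {θ s : V → ℂ} (hθ : Differentiable ℂ θ) (hs : Differentiable ℂ s) {v₀ : V} (hv₀ : θ v₀ ≠ 0)
    (hsne' : ∀ x ∈ K, s (v₀ + x) ≠ 0) {κ : V → ℂ} (hκ : ∀ b ∈ latt G, b ∈ K → ‖κ b‖ = 1)
    (heq : ∀ (b : V) (hb : b ∈ latt G), b ∈ K → ∀ v : V,
      θ (b + v) * s v = κ b * M.e (tr b hb) v * θ v * s (b + v)) :
    ∀ b ∈ latt G, b ∈ K → κ b * chi M f b = 1 := by
  classical
  have hF := hpot.1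
  have hv₀' : s v₀ ≠ 0 := by
    have h := hsne' 0 K.zero_mem
    rwa [add_zero] at h
  have : FiniteDimensional ℝ V := FiniteDimensional.complexToReal V
  let SK : AddSubgroup K := (latt G).comap K.subtype.toAddMonoidHom
  have hmap : (Submodule.span ℝ (SK : Set K)).map (K.subtype.restrictScalars ℝ)
      = Submodule.span ℝ {b | b ∈ latt G ∧ b ∈ K} := by
    rw [Submodule.map_span]
    congr 1
    ext x
    constructor
    · rintro ⟨y, hy, rfl⟩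
      exact ⟨hy, y.2⟩
    · rintro ⟨hx, hx0⟩
      exact ⟨⟨x, hx0⟩, hx, rfl⟩
  have hspan : Submodule.span ℝ (SK : Set K) = ⊤ := by
    rw [eq_top_iff]
    rintro ⟨x, hx⟩ -
    have h1 := hspanV x hx
    rw [← hmap] at h1
    obtain ⟨y, hy, hyx⟩ := h1
    have h2 : y = ⟨x, hx⟩ := Subtype.ext hyx
    rwa [← h2]
  have : ProperSpace K := FiniteDimensional.proper ℂ K
  have hsne : ∀ x : K, s (v₀ + x) ≠ 0 := fun x => hsne' x x.2
  let u : K → ℂ := fun x => θ (v₀ + x) / s (v₀ + x) * Complex.exp (-f (v₀ + x))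
  have hu : Differentiable ℂ u := by
    have h2 : Differentiable ℂ fun x : K => v₀ + (x : V) := K.subtypeL.differentiable.const_add v₀
    have h3 : Differentiable ℂ fun x : K => θ (v₀ + x) := hθ.comp h2
    have h4 : Differentiable ℂ fun x : K => (s (v₀ + x))⁻¹ :=
      Differentiable.inv (h := fun x : K => s (v₀ + x)) (hs.comp h2) hsne
    have h5 : Differentiable ℂ fun x : K => Complex.exp (-f (v₀ + x)) :=
      (Differentiable.neg (f := fun x : K => f (v₀ + x)) (hF.comp h2)).cexp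
    have h6 : u = fun x : K => θ (v₀ + x) * (s (v₀ + x))⁻¹ * Complex.exp (-f (v₀ + x)) := by
      funext x
      simp only [u, div_eq_mul_inv]
    rw [h6]
    exact (h3.mul h4).mul h5
  have hueq : ∀ (b : K) (_ : (b : V) ∈ latt G) (x : K), u (b + x) = κ b * chi M f b * u x := by
    intro b hb x
    have h1 := heq (b : V) hb b.2 (v₀ + x)
    have h2 := tw_tr_ker hH hpot hb (hKH b.2) (v₀ + (x : V))
    have hs1 : s ((b : V) + (v₀ + x)) ≠ 0 := by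
      have := hsne (b + x)
      rwa [Submodule.coe_add, add_left_comm] at this
    have hs2 := hsne x
    have h3 : θ ((b : V) + (v₀ + x)) / s ((b : V) + (v₀ + x))
        = κ b * M.e (tr (b : V) hb) (v₀ + x) * (θ (v₀ + x) / s (v₀ + x)) := by
      rw [div_eq_iff hs1, ← mul_div_assoc, div_mul_eq_mul_div, eq_div_iff hs2]
      exact h1
    simp only [u]
    rw [← h2, Pool.Agent.W594.SYZ2.TQ.tw, tr_apply, Submodule.coe_add,
      add_left_comm v₀ (b : V) (x : V), h3]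
    have h4 : Complex.exp (-f ((b : V) + (v₀ + x)))
        = Complex.exp (f (v₀ + x) - f ((b : V) + (v₀ + x))) * Complex.exp (-f (v₀ + x)) := by
      rw [← Complex.exp_add]
      congr 1
      ring
    rw [h4]
    ring
  obtain ⟨C, hC⟩ := cobounded SK hspan
  have hbd : Bornology.IsBounded (Set.range u) := by
    have hK : IsCompact (Metric.closedBall (0 : K) C) := isCompact_closedBall _ _
    obtain ⟨R, hR⟩ := (isBounded_iff_forall_norm_le.1 (hK.image hu.continuous).isBounded)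
    rw [isBounded_iff_forall_norm_le]
    refine ⟨R, ?_⟩
    rintro _ ⟨v, rfl⟩
    obtain ⟨b, hb, hbC⟩ := hC v
    have hb' : (b : V) ∈ latt G := hb
    have h1 : ‖u (b + v)‖ = ‖u v‖ := by
      rw [hueq b hb' v, norm_mul, norm_mul, chi_norm hH hpot hb' (hKH b.2), hκ b hb' b.2, one_mul,
        one_mul]
    rw [← h1]
    exact hR _ ⟨b + v, by rwa [mem_closedBall_zero_iff], rfl⟩
  intro b hb hbK
  have h1 := hueq ⟨b, hbK⟩ hb 0
  have h2 : u (⟨b, hbK⟩ + 0) = u 0 := hu.apply_eq_apply_of_bounded hbd _ _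
  rw [h2] at h1
  have h3 : u 0 ≠ 0 := by
    simp only [u, Submodule.coe_zero, add_zero]
    exact mul_ne_zero (div_ne_zero hv₀ hv₀') (Complex.exp_ne_zero _)
  exact (mul_right_cancel₀ h3 ((one_mul _).trans h1)).symm

/-- The value of the character. -/
theorem chi_value' (hΓ : IsFlatQuotient Γ) (hρ : IsRamification Γ ρ σ l)
    (hβ : IsEffective β k) (hL : IsLogPluricanonical A m ρ σ l β k) (hH : IsHermitian H)
    (ι : ∀ j, Fin (r j + 1)) (hpot : IsPot (secL A ι) H f)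
    {K : Submodule ℂ (Fin n → ℂ)} (hKH : K ≤ ker hH)
    (hspanV : ∀ x ∈ K, x ∈ Submodule.span ℝ {b | b ∈ latt (GD Γ) ∧ b ∈ K})
    (hmirK : ∀ v₀, ¬ OnMirror (GV Γ) v₀ → ∀ x ∈ K, ¬ OnMirror (GV Γ) (v₀ + x))
    {I : Co r →₀ ℕ} (hI : ∃ v, coeff I (β v) ≠ 0) {b : Fin n → ℂ} (hb : b ∈ latt (GD Γ))
    (hbK : b ∈ K) {a : ℂ}
    (ha : ∀ z, eval (diag (chiOf (tr b hb)) z) σ = a * eval z σ) :
    kap A.deg ι I m (chiOf (tr b hb)) a * chi (secL A ι) f b = 1 := by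
  classical
  obtain ⟨v₀, hv₀, hv₀'⟩ := exists_common (hβ.holo I) hρ.holo hI hρ.rne
  have hnu : ∀ (b : Fin n → ℂ) (hb : b ∈ latt (GD Γ)), ∃ a : ℂ,
      ∀ z, eval (diag (chiOf (tr b hb)) z) σ = a * eval z σ := fun b hb =>
    inv_diag hρ (tr b hb)
  choose A' hA using hnu
  obtain ⟨κ, hκ⟩ : ∃ κ : (Fin n → ℂ) → ℂ, ∀ (b : Fin n → ℂ) (hb : b ∈ latt (GD Γ)),
      κ b = kap A.deg ι I m (chiOf (tr b hb)) (A' b hb) :=
    exists_ext (P := fun b => b ∈ latt (GD Γ)) fun b hb =>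
      kap A.deg ι I m (chiOf (tr b hb)) (A' b hb)
  have hκ1 : ∀ b ∈ latt (GD Γ), b ∈ K → ‖κ b‖ = 1 := by
    intro b hb _
    have h1 : ∀ s, ‖(chiOf (tr b hb) s : ℂ)‖ = 1 := norm_chi hΓ (lft (tr b hb)).2
    rw [hκ b hb]
    exact norm_kap _ _ _ _ h1 (norm_sigma h1 hρ.ne_zero (hA b hb))
  have heq : ∀ (b : Fin n → ℂ) (hb : b ∈ latt (GD Γ)), b ∈ K →
      ∀ v : Fin n → ℂ, coeff I (β (b + v)) * ρ v ^ m =
        κ b * (secL A ι).e (tr b hb) v * coeff I (β v) * ρ (b + v) ^ m := by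
    intro b hb _ v
    rw [hκ b hb]
    exact eq_kap hL hρ.ne_zero ι I hb (hA b hb) v
  have hmir : ¬ OnMirror (GV Γ) v₀ := fun h => hv₀' ((hρ.rzero v₀).2 h)
  have hs : Differentiable ℂ fun v => ρ v ^ m := hρ.holo.pow m
  have key : κ b * chi (secL A ι) f b = 1 :=
    kappa_one' (M := secL A ι) (θ := fun v => coeff I (β v)) (s := fun v => ρ v ^ m)
      hH hpot hKH hspanV (hβ.holo I) hs hv₀
      (fun x hx h => hmirK v₀ hmir x hx ((hρ.rzero _).1 (eq_zero_of_pow_eq_zero h))) hκ1 heq b hb hbK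
  have h1 : A' b hb = a := by
    obtain ⟨z, hz⟩ : ∃ z, eval z σ ≠ 0 := by
      by_contra hcon
      push Not at hcon
      exact hρ.ne_zero (MvPolynomial.funext fun z => by rw [hcon, map_zero])
    exact mul_right_cancel₀ hz ((hA b hb z).symm.trans (ha z))
  rw [hκ b hb, h1] at key
  exact key

/-- **The quotients of the characters of the coordinates are roots of unity.** -/
theorem coord_root (hΓ : IsFlatQuotient Γ) (hρ : IsRamification Γ ρ σ l)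
    (hβ : IsEffective β k) (hA : IsLogPluricanonical A m ρ σ l β k) (hH : IsHermitian H)
    {K : Submodule ℂ (Fin n → ℂ)} (hKH : K ≤ ker hH)
    (hspanV : ∀ x ∈ K, x ∈ Submodule.span ℝ {b | b ∈ latt (GD Γ) ∧ b ∈ K})
    (hmirK : ∀ v₀, ¬ OnMirror (GV Γ) v₀ → ∀ x ∈ K, ¬ OnMirror (GV Γ) (v₀ + x))
    (hex : ∃ N : ℕ, 1 ≤ N ∧ ∀ (j : Fin c) (i i' : Fin (r j + 1)),
      N • (Pi.single ⟨j, i⟩ 1 - Pi.single ⟨j, i'⟩ 1 : Co r → ℤ) ∈
        AddSubgroup.closure (Dif β σ)) (ι : ∀ j, Fin (r j + 1)) (hpot : IsPot (secL A ι) H f) :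
    ∃ N : ℕ, 1 ≤ N ∧ ∀ b (hb : b ∈ latt (GD Γ)), b ∈ K →
      ∀ j (i i' : Fin (r j + 1)),
        chiOf (tr b hb) ⟨j, i⟩ ^ N = chiOf (tr b hb) ⟨j, i'⟩ ^ N := by
  classical
  obtain ⟨N, hN1, hN⟩ := hex
  refine ⟨N, hN1, fun b hb hbK => ?_⟩
  obtain ⟨J0, hJ0⟩ := MvPolynomial.support_nonempty.2 hρ.ne_zero
  obtain ⟨a, ha'⟩ := inv_diag hρ (tr b hb)
  obtain ⟨χ, hχ⟩ : ∃ χ, χ = chiOf (tr b hb) := ⟨_, rfl⟩
  have hval : ∀ I : Co r →₀ ℕ, (∃ v, coeff I (β v) ≠ 0) →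
      (∏ s, (chiOf (tr b hb) s : ℂ) ^ I s)⁻¹ * (∏ s, (chiOf (tr b hb) s : ℂ)) ^ m * a ^ m *
        (∏ j, (chiOf (tr b hb) ⟨j, ι j⟩ : ℂ) ^ A.deg j) * chi (secL A ι) f b = 1 :=
    fun I hI => chi_value' hΓ hρ hβ hA hH ι hpot hKH hspanV hmirK hI hb hbK ha'
  rw [← hχ] at ha' hval ⊢
  have hne : ∀ I : Co r →₀ ℕ, ∏ s, (χ s : ℂ) ^ I s ≠ 0 := fun I =>
    Finset.prod_ne_zero_iff.2 fun s _ => pow_ne_zero _ (Units.ne_zero _)
  have hEq : ∀ I I' : Co r →₀ ℕ, ∏ s, (χ s : ℂ) ^ I s = ∏ s, (χ s : ℂ) ^ I' s →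
      ∏ s, χ s ^ ((I s : ℤ) - I' s) = 1 := by
    intro I I' h
    apply Units.ext
    rw [Units.coe_prod, Units.val_one]
    have h1 : ∀ s, ((χ s ^ ((I s : ℤ) - I' s) : ℂˣ) : ℂ) = (χ s : ℂ) ^ I s * ((χ s : ℂ) ^ I' s)⁻¹ := by
      intro s
      rw [Units.val_zpow_eq_zpow_val, zpow_sub₀ (Units.ne_zero _), zpow_natCast, zpow_natCast,
        div_eq_mul_inv]
    rw [Finset.prod_congr rfl fun s _ => h1 s, Finset.prod_mul_distrib, Finset.prod_inv_distrib, h]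
    exact mul_inv_cancel₀ (hne I')
  have hone : ∀ x ∈ Dif β σ, ∏ s, χ s ^ x s = 1 := by
    rintro x (⟨I, I', hI, hI', rfl⟩ | ⟨J, hJ, J', hJ', rfl⟩)
    · refine hEq I I' ?_
      have h1 := hval I hI
      have h2 := hval I' hI'
      rw [← h2] at h1
      have h3 : (∏ s, (χ s : ℂ)) ^ m * a ^ m * (∏ j, (χ ⟨j, ι j⟩ : ℂ) ^ A.deg j) *
          chi (secL A ι) f b ≠ 0 := by
        intro h0
        have h4 : (∏ s, (χ s : ℂ) ^ I s)⁻¹ * ((∏ s, (χ s : ℂ)) ^ m * a ^ m *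
          (∏ j, (χ ⟨j, ι j⟩ : ℂ) ^ A.deg j) * chi (secL A ι) f b) = 1 := by
          rw [← hval I hI]
          ring
        rw [h0, mul_zero] at h4
        exact zero_ne_one h4
      have h4 : (∏ s, (χ s : ℂ) ^ I s)⁻¹ * ((∏ s, (χ s : ℂ)) ^ m * a ^ m *
          (∏ j, (χ ⟨j, ι j⟩ : ℂ) ^ A.deg j) * chi (secL A ι) f b) =
          (∏ s, (χ s : ℂ) ^ I' s)⁻¹ * ((∏ s, (χ s : ℂ)) ^ m * a ^ m *
          (∏ j, (χ ⟨j, ι j⟩ : ℂ) ^ A.deg j) * chi (secL A ι) f b) := by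
        linear_combination h1
      exact inv_injective (mul_right_cancel₀ h3 h4)
    · refine hEq J J' ?_
      rw [coeff_sigma ha' hJ, coeff_sigma ha' hJ']
  intro j i i'
  have h1 := char_closure χ hone (hN j i i')
  have h2 : ∀ x : Co r, ∏ s, χ s ^ (N * (Pi.single x 1 : Co r → ℤ) s) = χ x ^ N := by
    intro x
    rw [Finset.prod_eq_single x (fun s _ hs => by rw [Pi.single_eq_of_ne hs, mul_zero, zpow_zero])
      (fun h => absurd (Finset.mem_univ _) h), Pi.single_eq_same, mul_one, zpow_natCast]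
  have h3 : ∏ s, χ s ^ ((N • (Pi.single ⟨j, i⟩ 1 - Pi.single ⟨j, i'⟩ 1 : Co r → ℤ)) s) =
      χ ⟨j, i⟩ ^ N * (χ ⟨j, i'⟩ ^ N)⁻¹ := by
    rw [← h2 ⟨j, i⟩, ← h2 ⟨j, i'⟩, ← Finset.prod_inv_distrib, ← Finset.prod_mul_distrib]
    refine Finset.prod_congr rfl fun s _ => ?_
    rw [Pi.smul_apply, Pi.sub_apply, nsmul_eq_mul, mul_sub, zpow_sub]
  rwa [h3, mul_inv_eq_one] at h1

/-- the sections -/
theorem semiample_of_chi (hΓ : IsFlatQuotient Γ) (hH : IsHermitian H) (hn : L.IsNef H)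
    (hP : ∀ ι : ∀ j, Fin (r j + 1), IsPot (secL L ι) H f) {N : ℕ} (hN1 : 1 ≤ N)
    (hN : ∀ ι : ∀ j, Fin (r j + 1), ∀ b ∈ latt (GD Γ), b ∈ KN (GD Γ) (ker hH) →
      chi (secL L ι) f b ^ N = 1) : L.IsSemiample := by
  classical
  have hG := torus_GD hΓ
  have h1 : ∀ ι : ∀ j, Fin (r j + 1), ∃ k : ℕ, 1 ≤ k ∧
      ∀ v, ∃ s, ((secL L ι).pow k).IsSection s ∧ s v ≠ 0 := by
    intro ι
    obtain ⟨N', hN1', hN'⟩ := root_of_fixed hG hH (hP ι) hN1 (hN ι)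
    exact free_of_root hG hH (hP ι) hn.1 hN1' hN'
  choose κ hκ1 hκ using h1
  refine semiample_of_secD hΓ (K := ∏ ι, κ ι)
    (Nat.succ_le_of_lt (Finset.prod_pos fun ι _ => hκ1 ι)) ?_
  rintro ⟨v, z⟩ hz
  choose ι hι using hz
  obtain ⟨θ, hθ, hθ0⟩ := hκ ι v
  obtain ⟨M, hM⟩ := Finset.dvd_prod_of_mem κ (Finset.mem_univ ι)
  have h2 : ((secL L ι).pow (∏ ι, κ ι)).IsSection fun v => θ v ^ M := by
    refine ⟨hθ.holo.pow M, fun γ w => ?_⟩
    have h3 : θ ((γ : (Fin n → ℂ) ≃ᵃ[ℂ] (Fin n → ℂ)) w) = (secL L ι).e γ w ^ κ ι * θ w :=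
      hθ.eq γ w
    change θ ((γ : (Fin n → ℂ) ≃ᵃ[ℂ] (Fin n → ℂ)) w) ^ M =
      (secL L ι).e γ w ^ (∏ ι, κ ι) * θ w ^ M
    rw [h3, hM, pow_mul, mul_pow]
  refine ⟨_, lift_section hn.2 ι h2, ?_⟩
  refine mul_ne_zero (pow_ne_zero _ hθ0) (pow_ne_zero _ ?_)
  exact Finset.prod_ne_zero_iff.2 fun j _ => pow_ne_zero _ (hι j)

theorem chi_nsmul {G : Subgroup ((Fin n → ℂ) ≃ᵃ[ℂ] (Fin n → ℂ))}
    {M : Pool.Agent.W594.SYZ2.LineBundle G} (hH : IsHermitian H) (hpot : IsPot M H f)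
    {b : Fin n → ℂ} (hb : b ∈ latt G) (hbK : b ∈ ker hH) (N : ℕ) :
    chi M f (N • b) = chi M f b ^ N := by
  induction N with
  | zero => rw [zero_smul, chi_zero, pow_zero]
  | succ N ih =>
    rw [succ_nsmul, chi_add hH hpot ((latt G).nsmul_mem hb N) ((ker hH).nsmul_mem hbK N) hb hbK,
      ih, pow_succ]

/-- **Base point freeness** for line bundles which are trivial on the pure translations in the kernel, if
the quotients of the characters of the coordinates are roots of unity. -/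
theorem semiample_pure (hΓ : IsFlatQuotient Γ) (hH : IsHermitian H) (hf : Differentiable ℂ f)
    (hpot : ∀ (g : Γ) (v : Fin n → ℂ), ‖L.e g v‖ ^ 2 =
      Real.exp (Real.pi * (H ((g : Grp n r).1 v) ((g : Grp n r).1 v)).re
        + 2 * (f ((g : Grp n r).1 v)).re - (Real.pi * (H v v).re + 2 * (f v).re)))
    (hn : L.IsNef H) {N : ℕ} (hN1 : 1 ≤ N)
    (hN : ∀ b (hb : b ∈ latt (GD Γ)), b ∈ KN (GD Γ) (ker hH) → ∀ j (i i' : Fin (r j + 1)),
      chiOf (tr b hb) ⟨j, i⟩ ^ N = chiOf (tr b hb) ⟨j, i'⟩ ^ N)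
    (hpure : ∀ b ∈ ker hH, ∀ hb : ((AffineEquiv.constVAdd ℂ (Fin n → ℂ) b, 1) : Grp n r) ∈ Γ,
      L.e ⟨_, hb⟩ 0 * Complex.exp (f 0 - f b) = 1) : L.IsSemiample := by
  classical
  have hP : ∀ ι : ∀ j, Fin (r j + 1), IsPot (secL L ι) H f := secL_chern hΓ hf hpot
  refine semiample_of_chi hΓ hH hn hP hN1 fun ι b hb hbK => ?_
  have hbK' : b ∈ ker hH := hbK.1
  rw [← chi_nsmul hH (hP ι) hb hbK' N]
  have hbN := (latt (GD Γ)).nsmul_mem hb N
  obtain ⟨χ, hχ⟩ : ∃ χ, χ = chiOf (tr b hb) := ⟨_, rfl⟩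
  have h1 : ((AffineEquiv.constVAdd ℂ (Fin n → ℂ) b, diag χ) : Grp n r) ∈ Γ := by
    rw [hχ]
    exact (lft (tr b hb)).2
  obtain ⟨μ, hμ⟩ : ∃ μ : Fin c → ℂˣ, ∀ j, μ j = χ ⟨j, ι j⟩ ^ N := ⟨_, fun _ => rfl⟩
  have hμ1 : ∀ j, ‖((μ⁻¹) j : ℂ)‖ = 1 := by
    intro j
    rw [Pi.inv_apply, Units.val_inv_eq_inv_val, norm_inv, hμ, Units.val_pow_eq_pow_val, norm_pow,
      norm_chi hΓ h1, one_pow, inv_one]
  have h2 : ((AffineEquiv.constVAdd ℂ (Fin n → ℂ) (N • b), 1) : Grp n r) ∈ Γ := by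
    have h3 : ((AffineEquiv.constVAdd ℂ (Fin n → ℂ) (N • b), 1) : Grp n r) =
        ((AffineEquiv.constVAdd ℂ (Fin n → ℂ) b, diag χ) : Grp n r) ^ N * (1, scal μ⁻¹) := by
      refine Prod.ext ?_ ?_
      · rw [Prod.fst_mul, Prod.pow_fst, constVAdd_pow, mul_one]
      · rw [Prod.snd_mul, Prod.pow_snd, ← map_pow]
        refine LinearEquiv.ext fun z => funext fun s => ?_
        change z s = (((χ ^ N) s : ℂˣ) : ℂ) * (((μ⁻¹) s.1 : ℂˣ) * z s)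
        obtain ⟨j, i⟩ := s
        rw [Pi.pow_apply, Pi.inv_apply, ← mul_assoc, ← Units.val_mul, hμ, hχ,
          hN b hb hbK j i (ι j), mul_inv_cancel, Units.val_one, one_mul]
    rw [h3]
    exact Γ.mul_mem (Γ.pow_mem h1 N) (hΓ.scalar _ hμ1)
  have h4 : (((tr (N • b) hbN : GD Γ) : (Fin n → ℂ) ≃ᵃ[ℂ] (Fin n → ℂ)), diag (1 : Co r → ℂˣ)) =
      ((AffineEquiv.constVAdd ℂ (Fin n → ℂ) (N • b), 1) : Grp n r) :=
    Prod.ext rfl (map_one _)
  have h5 : ((((tr (N • b) hbN : GD Γ) : (Fin n → ℂ) ≃ᵃ[ℂ] (Fin n → ℂ)), diag (1 : Co r → ℂˣ)) :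
      Grp n r) ∈ Γ := by
    rw [h4]
    exact h2
  have h6 := hpure (N • b) ((ker hH).nsmul_mem hbK' N) h2
  have h8 : (⟨_, h5⟩ : Γ) = ⟨_, h2⟩ := Subtype.ext h4
  rw [chi_eq hbN, Pool.Agent.W594.SYZ2.TQ.tw, secL_e L ι (tr (N • b) hbN) h5, h8, tr_apply, add_zero]
  simp only [Pi.one_apply, Units.val_one, one_zpow, Finset.prod_const_one, inv_one, mul_one]
  exact h6

/-- **Base point freeness** for nef line bundles which are trivial on the pure translations in the kernel,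
in the presence of a rigid pair. -/
theorem semiample_gen (hΓ : IsFlatQuotient Γ) (hρ : IsRamification Γ ρ σ l)
    (hβ : IsEffective β k) (hA : IsLogPluricanonical A m ρ σ l β k)
    {HA : (Fin n → ℂ) → (Fin n → ℂ) → ℂ} (hcA : A.IsChernForm HA)
    (hex : ∃ N : ℕ, 1 ≤ N ∧ ∀ (j : Fin c) (i i' : Fin (r j + 1)),
      N • (Pi.single ⟨j, i⟩ 1 - Pi.single ⟨j, i'⟩ 1 : Co r → ℤ) ∈
        AddSubgroup.closure (Dif β σ))
    (hH : IsHermitian H) (hf : Differentiable ℂ f)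
    (hpot : ∀ (g : Γ) (v : Fin n → ℂ), ‖L.e g v‖ ^ 2 =
      Real.exp (Real.pi * (H ((g : Grp n r).1 v) ((g : Grp n r).1 v)).re
        + 2 * (f ((g : Grp n r).1 v)).re - (Real.pi * (H v v).re + 2 * (f v).re)))
    (hn : L.IsNef H) (hker : ∀ v, (∀ w, H v w = 0) → ∀ w, HA v w = 0)
    (hpure : ∀ b ∈ ker hH, ∀ hb : ((AffineEquiv.constVAdd ℂ (Fin n → ℂ) b, 1) : Grp n r) ∈ Γ,
      L.e ⟨_, hb⟩ 0 * Complex.exp (f 0 - f b) = 1) : L.IsSemiample := by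
  obtain ⟨hHA, fA, hfA, hpotA⟩ := hcA
  have hP : ∀ ι : ∀ j, Fin (r j + 1), IsPot (secL L ι) H f := secL_chern hΓ hf hpot
  have hPA : ∀ ι : ∀ j, Fin (r j + 1), IsPot (secL A ι) HA fA := secL_chern hΓ hfA hpotA
  obtain ⟨N, hN1, hN⟩ := coord_root hΓ hρ hβ hA hHA (K := KN (GD Γ) (ker hH))
    (fun x hx => hker x hx.1) (span_KN (torus_GD hΓ) hH (hP fun _ => 0) hn.1)
    (fun v₀ hv x hx => not_onMirror' GV_le hH (hP fun _ => 0) hv hx) hex (fun _ => 0)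
    (hPA fun _ => 0)
  exact semiample_pure hΓ hH hf hpot hn hN1 hN hpure

end

/-- **Base point freeness without distinguished coordinates.** -/
theorem semiample_gen_uq {Γ : Subgroup (Grp n r)} (hΓ : IsUQ Γ)
    {L A : LineBundle Γ} {ρ : (Fin n → ℂ) → ℂ} {σ : MvPolynomial (Co r) ℂ} {l k : Fin c → ℕ}
    {β : (Fin n → ℂ) → MvPolynomial (Co r) ℂ} {m : ℕ} {H HA : (Fin n → ℂ) → (Fin n → ℂ) → ℂ}
    {f : (Fin n → ℂ) → ℂ}
    (hρ : IsRamification Γ ρ σ l) (hβ : IsEffective β k)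
    (hA : IsLogPluricanonical A m ρ σ l β k) (hrig : Rigid σ β) (hcA : A.IsChernForm HA)
    (hH : IsHermitian H) (hf : Differentiable ℂ f)
    (hpot : ∀ (g : Γ) (v : Fin n → ℂ), ‖L.e g v‖ ^ 2 =
      Real.exp (Real.pi * (H ((g : Grp n r).1 v) ((g : Grp n r).1 v)).re
        + 2 * (f ((g : Grp n r).1 v)).re - (Real.pi * (H v v).re + 2 * (f v).re)))
    (hn : L.IsNef H) (hker : ∀ v, (∀ w, H v w = 0) → ∀ w, HA v w = 0)
    (hpure : ∀ b ∈ ker hH, ∀ hb : ((AffineEquiv.constVAdd ℂ (Fin n → ℂ) b, 1) : Grp n r) ∈ Γ,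
      L.e ⟨_, hb⟩ 0 * Complex.exp (f 0 - f b) = 1) : L.IsSemiample := by
  classical
  obtain ⟨P, hP, hQ⟩ := exists_flat hΓ
  have hβ' := eff_chg hP hβ
  have hρ' := ram_chg hP hρ
  obtain ⟨M, hM, h5⟩ := semiample_gen (L := lbc hP L) hQ hρ' hβ' (plu_chg hP hA) (chern_chg hP hcA)
    (exists_N' hβ' hρ'.homog hρ'.ne_zero (hrig P hP)) hH hf (fun g v => hpot ⟨cj P g, g.2⟩ v) hn hker
    (fun b hb hbm => by
      have h1 : cj P ((AffineEquiv.constVAdd ℂ (Fin n → ℂ) b, 1) : Grp n r) =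
          (AffineEquiv.constVAdd ℂ (Fin n → ℂ) b, 1) := by
        refine Prod.ext rfl ?_
        change P * 1 * P⁻¹ = 1
        rw [mul_one, mul_inv_cancel]
      have h2 : ((AffineEquiv.constVAdd ℂ (Fin n → ℂ) b, 1) : Grp n r) ∈ Γ := by
        rw [← h1]
        exact hbm
      have h3 := hpure b hb h2
      have h4 : (⟨cj P _, hbm⟩ : Γ) = ⟨_, h2⟩ := Subtype.ext h1
      change L.e ⟨cj P _, hbm⟩ 0 * _ = 1
      rw [h4]
      exact h3)
  refine ⟨M, hM, fun v z hz => ?_⟩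
  obtain ⟨s, hs, hs0⟩ := h5 v (P.symm z) ((BU.symm hP).isPt hz)
  refine ⟨fun p => s (p.1, P.symm p.2), ⟨?_, ?_, ?_⟩, hs0⟩
  · have h6 : Differentiable ℂ fun p : (Fin n → ℂ) × (Co r → ℂ) => (p.1, P.symm p.2) := by
      have h7 : Differentiable ℂ fun z => P.symm z :=
        ((P.symm : (Co r → ℂ) →ₗ[ℂ] (Co r → ℂ)).toContinuousLinearMap).differentiable
      exact differentiable_fst.prodMk (h7.comp differentiable_snd)
    exact hs.holo.comp h6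
  · intro μ v z
    have h6 : P.symm (scal μ z) = scal μ (P.symm z) := (BU.symm hP).scal μ z
    change s (v, P.symm (scal μ z)) = _ * s (v, P.symm z)
    rw [h6]
    exact hs.homog μ v _
  · intro g v z
    have h6 : cj P ((((g : Grp n r).1, P⁻¹ * (g : Grp n r).2 * P)) : Grp n r) = (g : Grp n r) := by
      refine Prod.ext rfl ?_
      change P * (P⁻¹ * (g : Grp n r).2 * P) * P⁻¹ = (g : Grp n r).2
      group
    have h7 : ((((g : Grp n r).1, P⁻¹ * (g : Grp n r).2 * P)) : Grp n r) ∈ chg P Γ := by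
      rw [mem_chg, h6]
      exact g.2
    have h8 := hs.eq ⟨_, h7⟩ v (P.symm z)
    change s ((g : Grp n r).1 v, P.symm ((g : Grp n r).2 (P (P.symm z)))) = _ at h8
    rw [LinearEquiv.apply_symm_apply] at h8
    change s ((g : Grp n r).1 v, P.symm ((g : Grp n r).2 z)) = _
    rw [h8]
    congr 1
    change L.e ⟨cj P _, _⟩ v ^ M = L.e g v ^ M
    congr 3

end Pool.Agent.H896.IR
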