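import Pool.Agent.H896.GN.Inv
import Pool.Agent.H896.GN.Pure

/-!
# Line bundles which dominate a klt pair
-/

set_option autoImplicit false

namespace Pool.Agent.H896.IG

open MvPolynomial Pool.Agent.T2H08.FB Pool.Agent.W594.SYZ2 Pool.Agent.W594.SYZ2.TQ
  Pool.Agent.TH735.AQ
open Pool.Agent.T2H08 Pool.Agent.H896.IQ

variable {n c : ℕ} {r : Fin c → ℕ} {Γ : Subgroup (Trans n r)}
  {H : (Fin n → ℂ) → (Fin n → ℂ) → ℂ} {f : (Fin n → ℂ) → ℂ}
  {ρ : (Fin n → ℂ) → ℂ} {σ : MvPolynomial (Co r) ℂ} {l : Fin c → ℕ} {m : ℕ}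

/-- **Base point freeness** for line bundles which are trivial on the pure translations. -/
theorem semiample_gen_ig (hΓ : IsIsometryGroup Γ) (hρ : IsRamification Γ ρ σ l)
    {β : (Fin n → ℂ) → MvPolynomial (Co r) ℂ} {k : Fin c → ℕ} (hβ : FQ.IsEffective β k)
    {A : LineBundle Γ} (hA : IsLogPluricanonical A m ρ σ l β k) (hrig : IR.Rigid σ β)
    {HA : (Fin n → ℂ) → (Fin n → ℂ) → ℂ} (hcA : A.IsChernForm HA)
    {L : LineBundle Γ} (hH : IsHermitian H) (hf : Pot L H f) (hn : L.IsNef H)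
    (hker : ∀ v, (∀ w, H v w = 0) → ∀ w, HA v w = 0)
    (hpure : ∀ b ∈ ker hH, pt r b ∈ Γ → nrm L f (pt r b) 0 = 1) : L.IsSemiample := by
  classical
  obtain ⟨M, hM, h5⟩ := IR.semiample_gen_uq (L := lbf L) (isUQ hΓ) (ram_fac hΓ hρ) hβ (plu_fac hA)
    hrig (chern_fac hcA) hH hf.1 (fun g v => hf.2 g.1 g.2.1 v) hn hker
    (fun b hb hbm => by
      have h1 := hpure b hb hbm.1
      rw [nrm, onV_pt, add_zero] at h1
      exact h1)
  refine semiample_of_secF hΓ hM fun p hp => ?_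
  obtain ⟨s, hs, hs0⟩ := h5 p.1 p.2 hp
  refine ⟨s, ⟨hs.holo, fun μ v z => ?_, fun g hg hg' p => hs.eq ⟨g, hg, hg'⟩ p.1 p.2⟩, hs0⟩
  have h6 := hs.homog μ v z
  change s (v, FQ.scal μ z) = _
  rw [h6]
  congr 1
  rw [← Finset.prod_pow]
  refine Finset.prod_congr rfl fun j _ => ?_
  change (μ j : ℂ) ^ ((M : ℤ) * L.deg j) = _
  rw [mul_comm, zpow_mul, zpow_natCast]

theorem ker_mul {M : ℕ} (hM : 1 ≤ M) (hH : IsHermitian H) (b : Fin n → ℂ) :
    b ∈ ker (herm_mul hH M) ↔ b ∈ ker hH := by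
  have hM0 : (M : ℂ) ≠ 0 := by
    have : M ≠ 0 := by omega
    exact_mod_cast this
  constructor
  · intro h w
    have h1 := h w
    exact (mul_eq_zero.1 h1).resolve_left hM0
  · intro h w
    change (M : ℂ) * H b w = 0
    rw [h w, mul_zero]

/-- **Numerical base point freeness** -/
theorem semiample_twist (hΓ : IsIsometryGroup Γ) (hρ : IsRamification Γ ρ σ l)
    {β : (Fin n → ℂ) → MvPolynomial (Co r) ℂ} {k : Fin c → ℕ} (hβ : FQ.IsEffective β k)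
    {A : LineBundle Γ} (hA : IsLogPluricanonical A m ρ σ l β k) (hrig : IR.Rigid σ β)
    {HA : (Fin n → ℂ) → (Fin n → ℂ) → ℂ} (hcA : A.IsChernForm HA)
    {L : LineBundle Γ} (hH : IsHermitian H) (hf : Pot L H f) (hn : L.IsNef H)
    (hker : ∀ v, (∀ w, H v w = 0) → ∀ w, HA v w = 0) :
    ∃ (M : ℕ) (ℓ : (Fin n → ℂ) →ₗ[ℝ] ℝ) (hℓ : ∀ g ∈ Γ, ∀ v, ℓ (g.1.linear v) = ℓ v), 1 ≤ M ∧
      (L.twist M ℓ hℓ).IsSemiample := by
  obtain ⟨M, ℓ, hM, hℓ, h⟩ := exists_functional hΓ hH hf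
  have hM0 : (M : ℂ) ≠ 0 := by
    have : M ≠ 0 := by omega
    exact_mod_cast this
  refine ⟨M, ℓ, hℓ, hM, semiample_gen_ig hΓ hρ hβ hA hrig hcA (herm_mul hH M)
    (pot_twist hf M ℓ hℓ) ⟨fun v => ?_, fun j => ?_⟩ (fun v hv => ?_) fun b hb hbm => ?_⟩
  · have h1 : ((M : ℂ) * H v v).re = (M : ℝ) * (H v v).re := by
      have : ((M : ℕ) : ℂ) = ((M : ℝ) : ℂ) := by push_cast; rfl
      rw [this, Complex.re_ofReal_mul]
    rw [h1]
    exact mul_nonneg (Nat.cast_nonneg _) (hn.1 v)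
  · exact mul_nonneg (Int.natCast_nonneg _) (hn.2 j)
  · exact hker v fun w => (mul_eq_zero.1 (hv w)).resolve_left hM0
  · rw [nrm_twist, h b ((ker_mul hM hH b).1 hb) hbm,
      mul_inv_cancel₀ (pow_ne_zero _ (nrm_ne_zero hbm 0))]

end Pool.Agent.H896.IG
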